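import Pool.Agent.H89.QT.Fks
import Pool.Agent.H89.IP.FrD

/-!
# QT.Cls : class functions from local data

`IsFP Q g` : `g` is a power `φ ^ j`, `j > 0`, of a Frobenius element (over `F`) at the maximal ideal `Q`, not above `2`. By `fks` it determines `Q`. `glob val` is the function
with the value `val Q g` at such an element `g`.
-/

set_option autoImplicit false

open scoped Pointwise NumberField
open IsDedekindDomain Pool.Agent.H71.Patch Pool.Agent.H89.IP

namespace Pool.Agent.H89.QT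

variable {F : Type*} [Field F] [NumberField F]

/-- `g` is a positive power of a Frobenius element at `Q`, and `Q` is not above `2` -/
def IsFP (Q : Ideal (Zbar F)) (g : GalK F) : Prop :=
  Q.IsMaximal ∧ (2 : Zbar F) ∉ Q ∧ ∃ φ : GalK F, IsArithFrobAt (𝓞 F) φ Q ∧
    ∃ j : ℕ, 0 < j ∧ g = φ ^ j

theorem IsFP.dec {Q : Ideal (Zbar F)} {g : GalK F} (h : IsFP Q g) : g ∈ Dec Q := by
  obtain ⟨hm, -, φ, hφ, j, -, rfl⟩ := h
  have := hm.isPrime
  exact pow_mem hφ.mem_stabilizer j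

theorem IsFP.unique {Q Q' : Ideal (Zbar F)} {g : GalK F} (h : IsFP Q g) (h' : IsFP Q' g) :
    Q = Q' := by
  obtain ⟨hm, h2, φ, hφ, j, hj, rfl⟩ := h
  exact fks hm h'.1 h2 h'.2.1 hφ hj h'.dec

theorem IsFP.conj {Q : Ideal (Zbar F)} {g : GalK F} (h : IsFP Q g) (x : GalK F) :
    IsFP (x • Q) (x * g * x⁻¹) := by
  obtain ⟨hm, h2, φ, hφ, j, hj, rfl⟩ := h
  refine ⟨?_, ?_, x * φ * x⁻¹, IsArithFrobAt.conj hφ x, j, hj, ?_⟩
  · have e : x • Q = Ideal.comap (MulSemiringAction.toRingEquiv (GalK F) (Zbar F) x⁻¹) Q := by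
      ext y
      rw [Ideal.pointwise_smul_eq_comap, Ideal.mem_comap, Ideal.mem_comap]
      rfl
    rw [e]
    exact Ideal.comap_isMaximal_of_equiv _
  · intro h3
    rw [Ideal.pointwise_smul_eq_comap, Ideal.mem_comap] at h3
    have h4 : x⁻¹ • (2 : Zbar F) ∈ Q := h3
    have h5 : x⁻¹ • (2 : Zbar F) = 2 := by
      rw [← one_add_one_eq_two, smul_add, smul_one]
    rw [h5] at h4
    exact h2 h4
  · rw [conj_pow]

theorem IsFP.conj_inv {Q : Ideal (Zbar F)} {g : GalK F} (h : IsFP Q g) (x : GalK F) :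
    IsFP (x⁻¹ • Q) (x⁻¹ * g * x) := by
  have := h.conj x⁻¹
  rwa [inv_inv] at this

theorem IsFP.conj_iff {Q : Ideal (Zbar F)} {g : GalK F} (x : GalK F) :
    IsFP (x • Q) (x * g * x⁻¹) ↔ IsFP Q g := by
  refine ⟨fun h => ?_, fun h => h.conj x⟩
  have h1 := h.conj x⁻¹
  have e : x⁻¹ * (x * g * x⁻¹) * x⁻¹⁻¹ = g := by group
  rw [e, inv_smul_smul] at h1
  exact h1

/-- the primes above `2` -/
def two (F : Type*) [Field F] [NumberField F] : Set (HeightOneSpectrum (𝓞 F)) :=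
  {v | (2 : 𝓞 F) ∈ v.asIdeal}

theorem two_finite : (two F).Finite := by
  have h2 : (Ideal.span {(2 : 𝓞 F)}) ≠ ⊥ := by
    rw [Ne, Ideal.span_singleton_eq_bot]
    exact two_ne_zero
  refine (Ideal.finite_factors h2).subset ?_
  intro v hv
  have : (2 : 𝓞 F) ∈ v.asIdeal := hv
  show v.asIdeal ∣ Ideal.span {(2 : 𝓞 F)}
  rw [Ideal.dvd_span_singleton]
  exact this

theorem above_max {v : HeightOneSpectrum (𝓞 F)} {Q : Ideal (Zbar F)} (h : Above v Q) :
    Q.IsMaximal := by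
  have := h.1
  have hm : (Q.under (𝓞 F)).IsMaximal := h.2 ▸ v.isMaximal
  exact Ideal.isMaximal_of_isIntegral_of_isMaximal_comap (R := 𝓞 F) Q hm

theorem above_two {v : HeightOneSpectrum (𝓞 F)} {Q : Ideal (Zbar F)} (h : Above v Q)
    (hv : v ∉ two F) : (2 : Zbar F) ∉ Q := by
  intro h2
  apply hv
  show (2 : 𝓞 F) ∈ v.asIdeal
  rw [← h.2, Ideal.under_def, Ideal.mem_comap, map_ofNat]
  exact h2

/-- powers of Frobenius elements outside `S`, and `S` contains the primes above `2` -/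
theorem frobPow_isFP {S : Set (HeightOneSpectrum (𝓞 F))} (hS : two F ⊆ S) {g : GalK F}
    (h : g ∈ FrobPow F S) : ∃ v, v ∉ S ∧ ∃ Q, Above v Q ∧ IsFP Q g := by
  obtain ⟨v, hv, Q, hQ, φ, hφ, j, hj, e⟩ := h
  exact ⟨v, hv, Q, hQ, above_max hQ, above_two hQ fun h => hv (hS h), φ, hφ, j, hj, e⟩

section glob

variable {B : Subgroup (GalK F)} {E : Type*} [Zero E]

open Classical in
/-- the function on `B` with the value `val Q g` at the powers `g` of Frobenius elements at `Q` -/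
noncomputable def glob (val : Ideal (Zbar F) → B → E) (g : B) : E :=
  if h : ∃ Q : Ideal (Zbar F), IsFP Q (g : GalK F) then val h.choose g else 0

theorem glob_eq (val : Ideal (Zbar F) → B → E) {Q : Ideal (Zbar F)} {g : B}
    (h : IsFP Q (g : GalK F)) : glob val g = val Q g := by
  have h1 : ∃ Q : Ideal (Zbar F), IsFP Q (g : GalK F) := ⟨Q, h⟩
  rw [glob, dif_pos h1, h1.choose_spec.unique h]

theorem glob_conj {val : Ideal (Zbar F) → B → E}
    (hval : ∀ (Q : Ideal (Zbar F)) (g x : B), IsFP Q (g : GalK F) →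
      val ((x : GalK F) • Q) (x * g * x⁻¹) = val Q g) (g h : B) :
    glob val (h⁻¹ * g * h) = glob val g := by
  by_cases h1 : ∃ Q : Ideal (Zbar F), IsFP Q (g : GalK F)
  · obtain ⟨Q, hQ⟩ := h1
    have h2 := hval Q g h⁻¹ hQ
    rw [inv_inv] at h2
    rw [glob_eq val hQ, ← h2]
    exact glob_eq val (hQ.conj_inv (h : GalK F))
  · have h2 : ¬ ∃ Q : Ideal (Zbar F), IsFP Q ((h⁻¹ * g * h : B) : GalK F) := by
      rintro ⟨Q, hQ⟩
      apply h1
      have h3 := hQ.conj (h : GalK F)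
      have e : (h : GalK F) * ((h⁻¹ * g * h : B) : GalK F) * (h : GalK F)⁻¹ = g := by
        push_cast
        group
      rw [e] at h3
      exact ⟨_, h3⟩
    rw [glob, dif_neg h2, glob, dif_neg h1]

end glob

end Pool.Agent.H89.QT
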