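import Pool.Agent.H89.QT.Chi1
import Pool.Agent.H89.QT.Cls

/-!
# QT.Chi : a quadratic character which is ramified at one prime and trivial at another one
-/

set_option autoImplicit false

open scoped Pointwise NumberField
open Matrix IsDedekindDomain Pool.Agent.H71.Patch Pool.Agent.H51.QT Pool.Agent.H19.QT

namespace Pool.Agent.H89.QT

/-- CRT: an element of valuation one at `P` which is congruent to `1` modulo `4 P'` locally at `P'` -/
theorem chi_crt (K : Type) [Field K] [NumberField K] (P P' : Ideal (𝓞 K)) (hP : P.IsMaximal)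
    (hP' : P'.IsMaximal) (hP0 : P ≠ ⊥) (hP'0 : P' ≠ ⊥) (hne : P ≠ P') :
    ∃ x d y : 𝓞 K, x ∈ P ∧ x ∉ P ^ 2 ∧ d ∉ P' ∧ y ∈ P' ∧ d * (x - 1) = 4 * y := by
  have h4 : Ideal.span {(4 : 𝓞 K)} ≠ 0 := by
    rw [Ne, Ideal.zero_eq_bot, Ideal.span_singleton_eq_bot]
    have h5 : ((4 : ℕ) : 𝓞 K) ≠ 0 := Nat.cast_ne_zero.2 (by norm_num)
    exact_mod_cast h5
  have hirr : Irreducible P' := (Ideal.prime_of_isPrime hP'0 hP'.isPrime).irreducible
  obtain ⟨k, J, hJ, h4J⟩ := WfDvdMonoid.max_power_factor h4 hirr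
  have hcop : IsCoprime (P' ^ (k + 1)) (P ^ 2) := by
    refine IsCoprime.pow ?_
    rw [Ideal.isCoprime_iff_sup_eq]
    exact Ideal.IsMaximal.coprime_of_ne hP' hP (Ne.symm hne)
  obtain ⟨a, ha, b, hb, hab⟩ := Ideal.isCoprime_iff_exists.1 hcop
  obtain ⟨ϖ, hϖ, hϖ2⟩ : ∃ ϖ ∈ P, ϖ ∉ P ^ 2 := by
    have h5 : P ^ 2 < P := by
      have h6 : P ^ 2 < P ^ 1 := Ideal.pow_right_strictAnti P hP0 hP.ne_top (show 1 < 2 by norm_num)
      rwa [pow_one] at h6
    obtain ⟨ϖ, h6, h7⟩ := SetLike.exists_of_lt h5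
    exact ⟨ϖ, h6, h7⟩
  obtain ⟨d, hd, hd'⟩ : ∃ d ∈ J, d ∉ P' := by
    by_contra hcon
    push Not at hcon
    exact hJ (Ideal.dvd_iff_le.2 fun d hd => hcon d hd)
  have hx1 : (a * ϖ + b) - 1 ∈ P' ^ (k + 1) := by
    have : (a * ϖ + b) - 1 = a * (ϖ - 1) := by
      have h6 : b = 1 - a := by rw [← hab]; ring
      rw [h6]; ring
    rw [this]
    exact Ideal.mul_mem_right _ _ ha
  have h7 : d * ((a * ϖ + b) - 1) ∈ Ideal.span {(4 : 𝓞 K)} * P' := by
    rw [h4J]
    have h8 : P' ^ k * J * P' = J * P' ^ (k + 1) := by ring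
    rw [h8]
    exact Ideal.mul_mem_mul hd hx1
  obtain ⟨y, hy, hy4⟩ := Ideal.mem_span_singleton_mul.1 h7
  refine ⟨a * ϖ + b, d, y, ?_, ?_, hd', hy, hy4.symm⟩
  · exact P.add_mem (P.mul_mem_left _ hϖ) (Ideal.pow_le_self two_ne_zero hb)
  · intro h9
    apply hϖ2
    have h10 : ϖ = (a * ϖ + b) - (b * (1 - ϖ)) := by
      have h6 : a = 1 - b := by rw [← hab]; ring
      rw [h6]; ring
    rw [h10]
    exact (P ^ 2).sub_mem h9 ((P ^ 2).mul_mem_right _ hb)

variable {F : Type} [Field F] [NumberField F]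

/-- Hensel's lemma by hand: `s ^ 2` is congruent to `1` modulo `4 Q` -/
theorem chi_hensel {Q : Ideal (Zbar F)} (hQ : Q.IsPrime) {g : GalK F} (hg : g ∈ Dec Q)
    {s D Y : Zbar F} (hD : D ∉ Q) (hY : Y ∈ Q) (hs : D * (s ^ 2 - 1) = 4 * Y) (hgD : g • D = D)
    (hgs : g • s = s ∨ g • s = - s) : g • s = s := by
  refine hgs.resolve_right fun hgs => hD ?_
  let Z0 : AlgebraicClosure F := (D : AlgebraicClosure F) * ((s : AlgebraicClosure F) - 1) / 2
  have hs0 : (D : AlgebraicClosure F) * ((s : AlgebraicClosure F) ^ 2 - 1) =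
      4 * (Y : AlgebraicClosure F) := by
    have := congrArg Subtype.val hs
    push_cast at this
    exact this
  have hZ0 : Z0 ^ 2 + (D : AlgebraicClosure F) * Z0 -
      (D : AlgebraicClosure F) * (Y : AlgebraicClosure F) = 0 := by
    show ((D : AlgebraicClosure F) * ((s : AlgebraicClosure F) - 1) / 2) ^ 2 +
      (D : AlgebraicClosure F) * ((D : AlgebraicClosure F) * ((s : AlgebraicClosure F) - 1) / 2) -
      (D : AlgebraicClosure F) * (Y : AlgebraicClosure F) = 0
    linear_combination ((D : AlgebraicClosure F) / 4) * hs0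
  have hint : IsIntegral (Zbar F) Z0 := by
    refine ⟨Polynomial.X ^ 2 + Polynomial.C D * Polynomial.X - Polynomial.C (D * Y), ?_, ?_⟩
    · monicity!
    · rw [Polynomial.eval₂_sub, Polynomial.eval₂_add, Polynomial.eval₂_mul, Polynomial.eval₂_pow,
        Polynomial.eval₂_X, Polynomial.eval₂_C, Polynomial.eval₂_C, map_mul]
      exact hZ0
  have hint2 : IsIntegral (𝓞 F) Z0 := isIntegral_trans _ hint
  let Z : Zbar F := ⟨Z0, hint2⟩
  have h2Z : 2 * Z = D * (s - 1) := by
    apply Subtype.ext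
    push_cast
    show 2 * ((D : AlgebraicClosure F) * ((s : AlgebraicClosure F) - 1) / 2) = _
    ring
  have hZ : Z * (Z + D) = D * Y := by
    apply Subtype.ext
    push_cast
    show Z0 * (Z0 + (D : AlgebraicClosure F)) = _
    linear_combination hZ0
  have hgZ : g • Z = - Z - D := by
    have h3 : 2 * (g • Z) = 2 * (- Z - D) := by
      have h4 : g • (2 * Z) = 2 * (g • Z) := by
        rw [smul_mul', ← one_add_one_eq_two, smul_add, smul_one]
      rw [← h4, h2Z, smul_mul', smul_sub, smul_one, hgD, hgs]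
      linear_combination h2Z
    exact mul_left_cancel₀ two_ne_zero h3
  have h5 : Z * (Z + D) ∈ Q := by
    rw [hZ]
    exact Q.mul_mem_left _ hY
  rcases hQ.mem_or_mem h5 with h6 | h6
  · have h7 := dec_mem hg h6
    rw [hgZ] at h7
    have h8 : D = -(Z + (- Z - D)) := by ring
    rw [h8]
    exact Q.neg_mem (Q.add_mem h6 h7)
  · have h7 := dec_mem hg h6
    rw [smul_add, hgZ, hgD] at h7
    have h8 : D = (Z + D) + (- Z - D + D) := by ring
    rw [h8]
    exact Q.add_mem h6 h7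

open Classical in
/-- the quadratic character of a square root -/
noncomputable def chi_sgn (B : Subgroup (GalK F)) (s : Zbar F) (hs0 : s ≠ 0)
    (hs : ∀ g ∈ B, g • s = s ∨ g • s = - s) : B →* ℤˣ where
  toFun g := if (g : GalK F) • s = s then 1 else -1
  map_one' := by
    rw [if_pos]
    exact one_smul _ s
  map_mul' g h := by
    have hne : s ≠ - s := fun h => hs0 (self_eq_neg.1 h)
    have hne' : - s ≠ s := fun h => hne h.symm
    have e : ((g * h : B) : GalK F) • s = (g : GalK F) • (h : GalK F) • s := mul_smul _ _ _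
    rcases hs g g.2 with h1 | h1 <;> rcases hs h h.2 with h2 | h2
    · rw [e, h2, h1]
      simp
    · rw [e, h2, smul_neg, h1]
      simp [hne']
    · rw [e, h2, h1]
      simp [hne']
    · rw [e, h2, smul_neg, h1]
      simp [hne']

theorem chi_sgn_one {B : Subgroup (GalK F)} {s : Zbar F} {hs0 : s ≠ 0}
    {hs : ∀ g ∈ B, g • s = s ∨ g • s = - s} {g : B} (h : (g : GalK F) • s = s) :
    chi_sgn B s hs0 hs g = 1 := if_pos h

theorem chi_sgn_neg {B : Subgroup (GalK F)} {s : Zbar F} {hs0 : s ≠ 0}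
    {hs : ∀ g ∈ B, g • s = s ∨ g • s = - s} {g : B} (h : (g : GalK F) • s = - s) :
    chi_sgn B s hs0 hs g = -1 := by
  refine if_neg fun h1 => hs0 ?_
  rw [h1] at h
  exact self_eq_neg.1 h

theorem chi_sgn_open (B : Subgroup (GalK F)) (s : Zbar F) (hs0 : s ≠ 0)
    (hs : ∀ g ∈ B, g • s = s ∨ g • s = - s) :
    IsOpen ((chi_sgn B s hs0 hs).ker : Set B) := by
  have h1 := stabilizer_isOpen_of_isIntegral (K := F) (L := AlgebraicClosure F)
    (s : AlgebraicClosure F)
  have h2 : (((chi_sgn B s hs0 hs).ker : Subgroup B) : Set B) =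
      Subtype.val ⁻¹' ((MulAction.stabilizer (GalK F) (s : AlgebraicClosure F) :
        Subgroup (GalK F)) : Set (GalK F)) := by
    ext g
    rw [SetLike.mem_coe, MonoidHom.mem_ker, Set.mem_preimage, SetLike.mem_coe,
      MulAction.mem_stabilizer_iff]
    constructor
    · intro h
      rcases hs g g.2 with h3 | h3
      · exact congrArg Subtype.val h3
      · rw [chi_sgn_neg h3] at h
        exact absurd h (by decide)
    · intro h
      exact chi_sgn_one (Subtype.ext h)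
  rw [h2]
  exact h1.preimage continuous_subtype_val

/-- a quadratic character, ramified at `Q` and trivial at `Q'` -/
theorem chi_quad (K : IntermediateField F (AlgebraicClosure F)) [FiniteDimensional F K]
    (B : Subgroup (GalK F)) (hB : B = K.fixingSubgroup) {u : HeightOneSpectrum (𝓞 F)}
    {Q Q' : Ideal (Zbar F)} (hu : Above u Q) (hu' : Above u Q') (hne : below K Q ≠ below K Q') :
    ∃ χ : B →* ℤˣ, IsOpen (χ.ker : Set B) ∧
      (∀ g : B, (g : GalK F) ∈ Dec Q' → χ g = 1) ∧ ∃ g : B, Acts Q g 1 ∧ χ g = -1 := by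
  haveI := numberField_of K
  obtain ⟨v, hv⟩ := over_exists K hu
  obtain ⟨v', hv'⟩ := over_exists K hu'
  obtain ⟨x, d, y, hx, hx2, hd, hy, hxy⟩ := chi_crt K v.asIdeal v'.asIdeal v.isMaximal
    v'.isMaximal v.ne_bot v'.ne_bot (by rw [← hv.2, ← hv'.2]; exact hne)
  obtain ⟨s0, hs0⟩ := IsAlgClosed.exists_pow_nat_eq ((incl K x : Zbar F) : AlgebraicClosure F)
    (n := 2) (by norm_num)
  have hs0i : IsIntegral (𝓞 F) s0 := by
    refine IsIntegral.of_pow (n := 2) (by norm_num) ?_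
    rw [hs0]
    exact (incl K x).2
  let s : Zbar F := ⟨s0, hs0i⟩
  have hs : s ^ 2 = incl K x := Subtype.ext (by push_cast; exact hs0)
  have hsne : s ≠ 0 := by
    intro h
    rw [h, zero_pow two_ne_zero, eq_comm, ← map_zero (incl K)] at hs
    have h1 := incl_inj K hs
    exact hx2 (h1 ▸ Submodule.zero_mem _)
  have hpm : ∀ g ∈ B, g • s = s ∨ g • s = - s := by
    intro g hg
    have h3 : (g • s) ^ 2 = s ^ 2 := by rw [← smul_pow', hs, smul_incl (hB ▸ hg)]
    exact sq_eq_sq_iff_eq_or_eq_neg.1 h3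
  refine ⟨chi_sgn B s hsne hpm, chi_sgn_open B s hsne hpm, ?_, ?_⟩
  · intro g hg
    refine chi_sgn_one (chi_hensel hv'.1 hg (D := incl K d) (Y := incl K y) ?_ ?_ ?_
      (smul_incl (hB ▸ g.2) d) (hpm g g.2))
    · rw [← mem_v hv']
      exact hd
    · rw [← mem_v hv']
      exact hy
    · rw [hs, ← map_one (incl K), ← map_sub, ← map_mul, hxy, map_mul, map_ofNat]
  · obtain ⟨g, hg, hg1, hgs⟩ := chi_abs K hv x hx hx2 s hs
    exact ⟨⟨g, hB ▸ hg⟩, hg1, chi_sgn_neg hgs⟩

end Pool.Agent.H89.QT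

namespace Pool.Agent.H51.QT

open Pool.Agent.H89.QT

variable {F : Type} [Field F] [NumberField F] {K : IntermediateField F (AlgebraicClosure F)}

/-- a quadratic character of the Galois group of `K L`, ramified at `Q` and trivial at the conjugate
place -/
theorem Known.quad (𝒦 : Known K) (θ : 𝒦.Eig) (A : Adm K (𝒦.om θ)) (u : HeightOneSpectrum (𝓞 F))
    (Q : Ideal (Zbar F)) (hu : Above u Q) (hs : Split K A.L Q)
    (c : GalK F) (hc : c ∈ A.L.fixingSubgroup) (hcK : c ∉ K.fixingSubgroup) :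
    ∃ χ : GG K A.L →* ℤˣ, IsOpen (χ.ker : Set (GG K A.L)) ∧
      (∀ g : GG K A.L, c * (g : GalK F) * c⁻¹ ∈ Dec Q → χ g = 1) ∧
      ∃ g : GG K A.L, Acts Q g 1 ∧ χ g = -1 := by
  haveI : FiniteDimensional F K := Module.finite_of_finrank_pos (by rw [𝒦.deg]; norm_num)
  haveI : FiniteDimensional F A.L := Module.finite_of_finrank_pos (by rw [A.deg]; norm_num)
  haveI hfin : FiniteDimensional F ↥(K ⊔ A.L) := IntermediateField.finiteDimensional_sup _ _
  have hB : GG K A.L = (K ⊔ A.L).fixingSubgroup := IntermediateField.fixingSubgroup_sup.symm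
  have hQ := hu.1
  have hu' : Above u (c⁻¹ • Q) := by
    refine ⟨hQ.smul _, ?_⟩
    rw [← hu.2]
    exact Ideal.under_smul (𝓞 F) Q c⁻¹
  have hne : below (K ⊔ A.L) Q ≠ below (K ⊔ A.L) (c⁻¹ • Q) := by
    intro h
    obtain ⟨g, hg, hgQ⟩ := chi_trans (K ⊔ A.L) hQ hu'.1 h
    rw [← hB] at hg
    have hgL : g ∈ A.L.fixingSubgroup := hg.2
    have hgK : g ∈ K.fixingSubgroup := hg.1
    have h1 : c * g ∈ Dec Q := by
      rw [MulAction.mem_stabilizer_iff, mul_smul, ← hgQ, smul_inv_smul]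
    have h2 := hs (c * g) (mul_mem hc hgL) h1
    apply hcK
    have h3 := mul_mem h2 (inv_mem hgK)
    rwa [mul_inv_cancel_right] at h3
  obtain ⟨χ, h1, h2, h3⟩ := chi_quad (K ⊔ A.L) (GG K A.L) hB hu hu' hne
  refine ⟨χ, h1, fun g hg => h2 g ?_, h3⟩
  rw [MulAction.mem_stabilizer_iff] at hg ⊢
  rw [mul_smul, mul_smul] at hg
  rw [eq_inv_smul_iff]
  exact hg

end Pool.Agent.H51.QT
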