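import Pool.Agent.H89.QT.Pat

/-!
# QT.PatNF : induction patching for a quadratic extension `K / L` of finite extensions of `F`
-/

set_option autoImplicit false

open scoped Pointwise NumberField
open Matrix IsDedekindDomain Pool.Agent.H71.Patch Pool.Agent.H41.TP

namespace Pool.Agent.H89.QT

open Pool.Agent.H89.IP

/-- `K` is a quadratic extension of `L`, `c` represents the nontrivial automorphism. `X` is a group of
continuous characters of finite order of `G_K` which contains all quadratic characters, `R χ` are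
continuous representations of `G_L` whose traces on the elements of `G_L` which are powers of Frobenius
elements of `F` outside a finite set are those of the representation induced from `ρ ⊗ χ` if `a` were
the trace of `ρ`. -/
theorem patNF {F : Type} [Field F] [NumberField F] (L K : IntermediateField F (AlgebraicClosure F))
    [FiniteDimensional F L] [FiniteDimensional F K] (hLK : L ≤ K) {c : GalK F}
    (hcL : c ∈ L.fixingSubgroup) (hcK : c ∉ K.fixingSubgroup)
    (h2 : ∀ g ∈ L.fixingSubgroup, g ∉ K.fixingSubgroup → c⁻¹ * g ∈ K.fixingSubgroup)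
    {E : Type*} [Field E] [IsAlgClosed E] [CharZero E]
    [TopologicalSpace E] [IsTopologicalRing E] [T2Space E] {N : ℕ}
    (X : Subgroup (K.fixingSubgroup →* Eˣ)) (hX : ∀ χ ∈ X, IsOfFinOrder χ ∧ Continuous χ)
    (hq : ∀ χ : K.fixingSubgroup →* Eˣ, Continuous χ → χ ^ 2 = 1 → χ ∈ X)
    (R : X → L.fixingSubgroup →* GL (Fin N) E) (hR : ∀ χ, Continuous (R χ))
    (S : X → Set (HeightOneSpectrum (𝓞 F))) (hS : ∀ χ, (S χ).Finite)
    (a : K.fixingSubgroup → E) (ha : ∀ g h, a (h⁻¹ * g * h) = a g)
    (tr : ∀ χ : X, ∀ g : L.fixingSubgroup, (g : GalK F) ∈ FrobPow F (S χ) →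
      (R χ g).val.trace = ind2 K.fixingSubgroup c (fun h => a h * ((χ.1 h : Eˣ) : E)) g) :
    ∃ (n : ℕ) (ρ : K.fixingSubgroup →* GL (Fin n) E), Continuous ρ ∧ Semis ρ ∧ N = 2 * n ∧
      (∀ (χ : X) (g : L.fixingSubgroup), (R χ g).val.trace =
        ind2 K.fixingSubgroup c (fun h => (ρ h).val.trace * ((χ.1 h : Eˣ) : E)) g) ∧
      (∀ (n' : ℕ) (ρ' : K.fixingSubgroup →* GL (Fin n') E), Continuous ρ' → Semis ρ' →
        (∀ (χ : X) (g : L.fixingSubgroup), (R χ g).val.trace =
          ind2 K.fixingSubgroup c (fun h => (ρ' h).val.trace * ((χ.1 h : Eˣ) : E)) g) →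
        MIso (fun g => (ρ' g).val) (fun g => (ρ g).val)) ∧
      (∀ (χ : X) (g : K.fixingSubgroup),
        R χ ⟨g, IntermediateField.fixingSubgroup_antitone hLK g.2⟩ = 1 → χ.1 g = 1 → ρ g = 1) ∧
      ∀ χ : X, Irred (R χ) → Irred ρ :=
  pat2 L.fixingSubgroup_isOpen K.fixingSubgroup_isOpen
    (IntermediateField.fixingSubgroup_antitone hLK) hcL hcK h2 X hX (genPos_quad K X hq) R hR
    (fun χ => FrobPow F (S χ)) (fun _ _ hg x => frobPow_conj hg x) (by
      intro Z
      have h1 : (⋃ χ ∈ Z, S χ).Finite := Set.Finite.biUnion Z.finite_toSet fun χ _ => hS χ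
      refine (frobPow_dense F h1).mono ?_
      intro g hg
      rw [Set.mem_iInter₂]
      intro χ hχ
      exact frobPow_anti (Set.subset_biUnion_of_mem (u := fun χ => S χ) hχ) hg) a ha tr

/-- the nontrivial coset of a quadratic extension -/
theorem exists_c {F : Type*} [Field F] [NumberField F]
    (L K : IntermediateField F (AlgebraicClosure F)) [FiniteDimensional F L]
    [FiniteDimensional F K] (hLK : L ≤ K)
    (h : Module.finrank F K = 2 * Module.finrank F L) :
    ∃ c ∈ L.fixingSubgroup, c ∉ K.fixingSubgroup ∧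
      ∀ g ∈ L.fixingSubgroup, g ∉ K.fixingSubgroup → c⁻¹ * g ∈ K.fixingSubgroup := by
  have hle := IntermediateField.fixingSubgroup_antitone hLK
  have hpos : 0 < Module.finrank F L := Module.finrank_pos
  have h1 := Subgroup.relIndex_mul_index hle
  rw [← IntermediateField.finrank_eq_fixingSubgroup_index,
    ← IntermediateField.finrank_eq_fixingSubgroup_index, h] at h1
  have h3 : K.fixingSubgroup.relIndex L.fixingSubgroup = 2 := Nat.eq_of_mul_eq_mul_right hpos h1
  obtain ⟨a, ha, haK, h4⟩ := Subgroup.relIndex_eq_two_iff_exists_notMem_and'.1 h3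
  refine ⟨a⁻¹, inv_mem ha, fun h => haK (inv_mem_iff.1 h), fun g hg hgK => ?_⟩
  rw [inv_inv]
  exact (h4 g hg).resolve_right hgK

end Pool.Agent.H89.QT
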