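import Pool.Agent.H51.QT.Base
import Pool.Agent.H89.QT.PatNF
import Pool.Agent.H89.QT.Cls

/-!
# QT.PatK : the patching theorem for an admissible base change
-/

set_option autoImplicit false

open scoped Pointwise NumberField
open Matrix IsDedekindDomain Pool.Agent.H71.Patch Pool.Agent.H89.IP Pool.Agent.H51.QT

namespace Pool.Agent.H89.QT

variable {F : Type} [Field F] [NumberField F] {K : IntermediateField F (AlgebraicClosure F)}

theorem patK_gen {E : Type*} [Field E] [CharZero E] [TopologicalSpace E]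
    (M : IntermediateField F (AlgebraicClosure F)) [FiniteDimensional F M]
    (B : Subgroup (GalK F)) (hB : B = M.fixingSubgroup) (X : Subgroup (B →* Eˣ))
    (hX : ∀ χ : B →* Eˣ, Continuous χ → χ ^ 2 = 1 → χ ∈ X) : GenPosX (G := GalK F) X := by
  subst hB
  exact genPos_quad M X hX

/-- the quadratic characters -/
def patK_X (B E : Type*) [Group B] [TopologicalSpace B] [Field E] [TopologicalSpace E]
    [ContinuousMul E] : Subgroup (B →* Eˣ) where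
  carrier := {χ | Continuous χ ∧ χ ^ 2 = 1}
  mul_mem' := by
    rintro χ ψ ⟨h1, h2⟩ ⟨h3, h4⟩
    refine ⟨?_, by
      ext g : 1
      have h5 : χ g ^ 2 = 1 := DFunLike.congr_fun h2 g
      have h6 : ψ g ^ 2 = 1 := DFunLike.congr_fun h4 g
      show (χ g * ψ g) ^ 2 = 1
      rw [mul_pow, h5, h6, one_mul]⟩
    have : (fun g => χ g * ψ g) = (χ * ψ : B →* Eˣ) := rfl
    exact this ▸ h1.mul h3
  one_mem' := ⟨continuous_const, one_pow _⟩
  inv_mem' := by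
    rintro χ ⟨h1, h2⟩
    have h3 : χ⁻¹ = χ := by
      ext g : 1
      have h4 : χ g ^ 2 = 1 := DFunLike.congr_fun h2 g
      rw [MonoidHom.inv_apply, inv_eq_iff_mul_eq_one, ← sq, h4]
    exact h3 ▸ ⟨h1, h2⟩

/-- the twist of a representation by a character -/
noncomputable def patK_tw {B E : Type*} [Group B] [Field E] {n : ℕ} (η : B →* Eˣ)
    (ρ : B →* GL (Fin n) E) : B →* GL (Fin n) E := (twi η (vm ρ)).toHomUnits

theorem patK_tw_val {B E : Type*} [Group B] [Field E] {n : ℕ} (η : B →* Eˣ)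
    (ρ : B →* GL (Fin n) E) (g : B) :
    (patK_tw η ρ g).val = ((η g : Eˣ) : E) • (ρ g).val := rfl

theorem patK_tw_cont {B E : Type*} [Group B] [TopologicalSpace B] [IsTopologicalGroup B] [Field E]
    [TopologicalSpace E] [IsTopologicalRing E] {n : ℕ} {η : B →* Eˣ} {ρ : B →* GL (Fin n) E}
    (h1 : Continuous η) (h2 : Continuous ρ) : Continuous (patK_tw η ρ) := by
  refine cont_gl ?_
  have h3 : Continuous fun g => ((η g : Eˣ) : E) • (ρ g).val :=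
    (Units.continuous_val.comp h1).smul (Units.continuous_val.comp h2)
  exact h3

theorem patK_tw_semis {B E : Type*} [Group B] [Field E] {n : ℕ} (η : B →* Eˣ)
    {ρ : B →* GL (Fin n) E} (h : Semis ρ) : Semis (patK_tw η ρ) := by
  rw [← msem_vm, patK_tw, vm_toHomUnits]
  exact MSem.twi η ((msem_vm ρ).2 h)

/-- a homomorphism to a discrete group with open kernel -/
theorem patK_cont {B E E' : Type*} [Group B] [TopologicalSpace B] [IsTopologicalGroup B]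
    [Group E] [TopologicalSpace E'] (η : B →* E) (h : IsOpen (η.ker : Set B)) (f : E → E') :
    Continuous fun g => f (η g) := by
  rw [continuous_def]
  intro U _
  rw [isOpen_iff_mem_nhds]
  intro g hg
  have h1 : (fun x => g⁻¹ * x) ⁻¹' (η.ker : Set B) ∈ nhds g :=
    (h.preimage (continuous_const_mul g⁻¹)).mem_nhds (by
      rw [Set.mem_preimage, inv_mul_cancel]
      exact η.ker.one_mem)
  refine Filter.mem_of_superset h1 ?_
  intro x hx
  have h2 : η (g⁻¹ * x) = 1 := hx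
  rw [map_mul, map_inv, inv_mul_eq_one] at h2
  show f (η x) ∈ U
  rw [← h2]
  exact hg

section

variable (𝒦 : Known K) (θ : 𝒦.Eig) (A : Adm K (𝒦.om θ))

include 𝒦

theorem patK_fin : FiniteDimensional F K :=
  Module.finite_of_finrank_pos (by rw [𝒦.deg]; norm_num)

omit 𝒦 in
theorem patK_finL {om : K.fixingSubgroup →* Qbˣ} (A : Adm K om) : FiniteDimensional F A.L :=
  Module.finite_of_finrank_pos (by rw [A.deg]; norm_num)

theorem patK_exists_c {om : K.fixingSubgroup →* Qbˣ} (A : Adm K om) :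
    ∃ c ∈ A.L.fixingSubgroup, c ∉ K.fixingSubgroup := by
  have h1 := patK_fin 𝒦
  have h2 := patK_finL A
  by_contra hc
  push Not at hc
  have h3 : K ≤ A.L := by
    rw [← InfiniteGalois.fixedField_fixingSubgroup A.L, IntermediateField.le_iff_le]
    exact hc
  exact A.ne (IntermediateField.eq_of_le_of_finrank_eq h3 (by rw [A.deg, 𝒦.deg])).symm

theorem patK_two {x y : GalK F} (hx : x ∉ K.fixingSubgroup) (hy : y ∉ K.fixingSubgroup) :
    x⁻¹ * y ∈ K.fixingSubgroup := by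
  have h1 := patK_fin 𝒦
  have h2 : K.fixingSubgroup.index = 2 := by
    rw [← IntermediateField.finrank_eq_fixingSubgroup_index, 𝒦.deg]
  rw [Subgroup.mul_mem_iff_of_index_two h2, inv_mem_iff]
  exact ⟨fun h => absurd h hx, fun h => absurd h hy⟩

/-- the patching theorem for an admissible base change -/
theorem pat (l : ℕ) [Fact l.Prime] (j : Qb →+* PadicAlgCl l) :
    ∃ ρ : GG K A.L →* GL (Fin 2) (PadicAlgCl l), IsPat 𝒦 A j ρ := by
  have hK := patK_fin 𝒦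
  have hL := patK_finL A
  obtain ⟨c, hcL, hcK⟩ := patK_exists_c 𝒦 A
  have hop : IsOpen ((GG K A.L : Subgroup (GalK F)) : Set (GalK F)) :=
    K.fixingSubgroup_isOpen.inter A.L.fixingSubgroup_isOpen
  have hnor : ∀ x ∈ A.L.fixingSubgroup, ∀ g ∈ GG K A.L, x⁻¹ * g * x ∈ GG K A.L := by
    intro x hx g hg
    have hg1 : g ∈ K.fixingSubgroup := hg.1
    have hg2 : g ∈ A.L.fixingSubgroup := hg.2
    refine Subgroup.mem_inf.2 ⟨?_, mul_mem (mul_mem (inv_mem hx) hg2) hx⟩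
    by_cases hxK : x ∈ K.fixingSubgroup
    · exact mul_mem (mul_mem (inv_mem hxK) hg1) hxK
    · rw [mul_assoc]
      refine patK_two 𝒦 hxK fun h => hxK ?_
      have := mul_mem (inv_mem hg1) h
      rwa [inv_mul_cancel_left] at this
  -- the primes above `l` and `2`
  let S : Set (HeightOneSpectrum (𝓞 F)) := {u | (l : 𝓞 F) ∈ u.asIdeal} ∪ two F
  have hl0 : l ≠ 0 := (Fact.out : l.Prime).ne_zero
  have hS : S.Finite := by
    refine Set.Finite.union ?_ two_finite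
    have h2 : (Ideal.span {(l : 𝓞 F)}) ≠ ⊥ := by
      rw [Ne, Ideal.span_singleton_eq_bot]
      exact_mod_cast hl0
    refine (Ideal.finite_factors h2).subset ?_
    intro v hv
    have : (l : 𝓞 F) ∈ v.asIdeal := hv
    show v.asIdeal ∣ Ideal.span {(l : 𝓞 F)}
    rw [Ideal.dvd_span_singleton]
    exact this
  -- the data
  let X := patK_X (GG K A.L) (PadicAlgCl l)
  have hR0 : ∀ χ : X, ∃ R : A.L.fixingSubgroup →* GL (Fin 4) (PadicAlgCl l), Continuous R ∧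
      ∀ (u : HeightOneSpectrum (𝓞 F)) (Q : Ideal (Zbar F)), Above u Q → (l : 𝓞 F) ∉ u.asIdeal →
        ∀ g : A.L.fixingSubgroup, Weil u Q g →
          ((g : GalK F) ∉ K.fixingSubgroup → (R g).val.trace = 0) ∧
          ∀ (c : GalK F) (h₁ : (g : GalK F) ∈ GG K A.L) (h₂ : c⁻¹ * (g : GalK F) * c ∈ GG K A.L),
            c ∈ A.L.fixingSubgroup → c ∉ K.fixingSubgroup →
            (R g).val.trace = tw K A (𝒦.tr θ) j χ.1 Q ⟨g, h₁⟩ +
              tw K A (𝒦.tr θ) j χ.1 (c⁻¹ • Q) ⟨_, h₂⟩ :=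
    fun χ => 𝒦.gal θ A l j χ.1 χ.2.1 χ.2.2
  choose R hR using hR0
  let val : Ideal (Zbar F) → GG K A.L → PadicAlgCl l := fun Q g =>
    j ((A.eta g)⁻¹ : Qbˣ) * j (𝒦.tr θ Q g)
  have hval : ∀ (Q : Ideal (Zbar F)) (g x : GG K A.L), IsFP Q (g : GalK F) →
      val ((x : GalK F) • Q) (x * g * x⁻¹) = val Q g := by
    intro Q g x _
    have h3 : A.eta (x * g * x⁻¹) = A.eta g := by
      rw [map_mul, map_mul, map_inv, mul_comm, inv_mul_cancel_left]
    show j ((A.eta (x * g * x⁻¹))⁻¹ : Qbˣ) *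
      j (𝒦.tr θ ((x : GalK F) • Q) ((x : GalK F) * g * (x : GalK F)⁻¹)) = _
    rw [h3, 𝒦.tr_conj θ Q g x x.2.1]
  have htw : ∀ (χ : X) (Q : Ideal (Zbar F)) (g : GG K A.L), tw K A (𝒦.tr θ) j χ.1 Q g =
      val Q g * ((χ.1 g : (PadicAlgCl l)ˣ) : PadicAlgCl l) := by
    intro χ Q g
    show ((χ.1 g : (PadicAlgCl l)ˣ) : PadicAlgCl l) * j ((A.eta g)⁻¹ : Qbˣ) * j (𝒦.tr θ Q g) =
      j ((A.eta g)⁻¹ : Qbˣ) * j (𝒦.tr θ Q g) * ((χ.1 g : (PadicAlgCl l)ˣ) : PadicAlgCl l)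
    ring
  have hweil : ∀ g ∈ FrobPow F S, ∃ u Q, Above u Q ∧ (l : 𝓞 F) ∉ u.asIdeal ∧ Weil u Q g ∧
      IsFP Q g := by
    intro g hg
    obtain ⟨u, hu, Q, hQ, φ, hφ, k, hk, rfl⟩ := hg
    refine ⟨u, Q, hQ, fun h => hu (Or.inl h), ⟨k, Or.inl fun x => ?_⟩,
      above_max hQ, above_two hQ fun h => hu (Or.inr h), φ, hφ, k, hk, rfl⟩
    have h3 := fks_pow hφ k x
    rw [hQ.2] at h3
    exact h3
  obtain ⟨n, ρ, c1, c2, c3, c4, -, -, -⟩ := pat2 (Γ := GalK F) (E := PadicAlgCl l)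
    (A := A.L.fixingSubgroup) (B := GG K A.L) A.L.fixingSubgroup_isOpen hop
    (fun g hg => hg.2) hcL (fun h => hcK h.1)
    (fun g hg hgK => Subgroup.mem_inf.2
      ⟨patK_two 𝒦 hcK fun h => hgK ⟨h, hg⟩, mul_mem (inv_mem hcL) hg⟩) X
    (fun χ hχ => ⟨isOfFinOrder_iff_pow_eq_one.2 ⟨2, by norm_num, hχ.2⟩, hχ.1⟩)
    (patK_gen (K ⊔ A.L) (GG K A.L) IntermediateField.fixingSubgroup_sup.symm X
      fun χ h1 h2 => ⟨h1, h2⟩) R (fun χ => (hR χ).1)
    (fun _ => FrobPow F S) (fun _ _ hg x => frobPow_conj hg x) (by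
      intro Z
      refine (frobPow_dense F hS).mono ?_
      intro g hg
      rw [Set.mem_iInter₂]
      exact fun _ _ => hg) (glob val) (fun g h => glob_conj hval g h) (by
      intro χ g hg
      obtain ⟨u, Q, hQ, hu, hW, hFP⟩ := hweil _ hg
      obtain ⟨t1, t2⟩ := (hR χ).2 u Q hQ hu g hW
      by_cases hgK : (g : GalK F) ∈ GG K A.L
      · have h3 := hnor c hcL _ hgK
        rw [ind2, dif_pos ⟨hgK, h3⟩, t2 c hgK h3 hcL hcK, htw, htw,
          glob_eq val (Q := Q) (g := ⟨g, hgK⟩) hFP,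
          glob_eq val (Q := c⁻¹ • Q) (g := ⟨c⁻¹ * g * c, h3⟩) (hFP.conj_inv c)]
      · rw [ind2, dif_neg (fun h => hgK h.1), t1 (fun h => hgK ⟨h, g.2⟩)])
  have hn : n = 2 := by omega
  subst hn
  let η : GG K A.L →* (PadicAlgCl l)ˣ := (Units.map (j : Qb →* PadicAlgCl l)).comp A.eta
  have hη : ∀ g, ((η g : (PadicAlgCl l)ˣ) : PadicAlgCl l) = j (A.eta g : Qb) := fun g => rfl
  have hηc : Continuous η :=
    patK_cont A.eta A.eta_open (Units.map (j : Qb →* PadicAlgCl l))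
  refine ⟨patK_tw η ρ, patK_tw_cont hηc c1, patK_tw_semis η c2, ?_⟩
  intro χ hχ1 hχ2 u Q hQ hu g hg c' hc'L hc'K h
  let χ' : X := ⟨χ, hχ1, hχ2⟩
  have hj : ∀ g : GG K A.L, j ((A.eta g)⁻¹ : Qbˣ) * j (A.eta g : Qb) = 1 := by
    intro g
    rw [← map_mul, Units.inv_mul, map_one]
  have hdif : ∀ (Q : Ideal (Zbar F)) (g : GG K A.L), dif 𝒦 A j (patK_tw η ρ) χ Q g =
      (ρ g).val.trace * ((χ'.1 g : (PadicAlgCl l)ˣ) : PadicAlgCl l) -
        tw K A (𝒦.tr θ) j χ'.1 Q g := by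
    intro Q g
    show ((χ g : (PadicAlgCl l)ˣ) : PadicAlgCl l) * j ((A.eta g)⁻¹ : Qbˣ) *
      ((patK_tw η ρ g).val.trace - j (𝒦.tr θ Q g)) = (ρ g).val.trace * ((χ g : (PadicAlgCl l)ˣ) :
        PadicAlgCl l) - ((χ g : (PadicAlgCl l)ˣ) : PadicAlgCl l) * j ((A.eta g)⁻¹ : Qbˣ) *
          j (𝒦.tr θ Q g)
    rw [patK_tw_val, Matrix.trace_smul, smul_eq_mul, hη]
    linear_combination ((χ g : (PadicAlgCl l)ˣ) : PadicAlgCl l) * (ρ g).val.trace * hj g
  have e1 := ((hR χ').2 u Q hQ hu ⟨g, g.2.2⟩ hg).2 c' g.2 h hc'L hc'K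
  have e2 := c4 χ' ⟨g, g.2.2⟩
  have h3 := hnor c hcL _ g.2
  rw [ind2, dif_pos ⟨g.2, h3⟩] at e2
  -- change the coset representative
  have e3 : (ρ ⟨c⁻¹ * (g : GalK F) * c, h3⟩).val.trace *
      ((χ'.1 ⟨c⁻¹ * (g : GalK F) * c, h3⟩ : (PadicAlgCl l)ˣ) : PadicAlgCl l) =
      (ρ ⟨c'⁻¹ * (g : GalK F) * c', h⟩).val.trace *
        ((χ'.1 ⟨c'⁻¹ * (g : GalK F) * c', h⟩ : (PadicAlgCl l)ˣ) : PadicAlgCl l) := by
    have hx : c⁻¹ * c' ∈ GG K A.L :=
      Subgroup.mem_inf.2 ⟨patK_two 𝒦 hcK hc'K, mul_mem (inv_mem hcL) hc'L⟩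
    let x : GG K A.L := ⟨c⁻¹ * c', hx⟩
    have e4 : (⟨c'⁻¹ * (g : GalK F) * c', h⟩ : GG K A.L) =
        x⁻¹ * ⟨c⁻¹ * (g : GalK F) * c, h3⟩ * x := by
      apply Subtype.ext
      show c'⁻¹ * (g : GalK F) * c' = (c⁻¹ * c')⁻¹ * (c⁻¹ * (g : GalK F) * c) * (c⁻¹ * c')
      group
    have e5 := chi_conj (vm ρ) (⟨c⁻¹ * (g : GalK F) * c, h3⟩ : GG K A.L) x⁻¹
    rw [inv_inv] at e5
    have e6 : (ρ (x⁻¹ * ⟨c⁻¹ * (g : GalK F) * c, h3⟩ * x)).val.trace =
        (ρ ⟨c⁻¹ * (g : GalK F) * c, h3⟩).val.trace := e5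
    have e7 : χ'.1 (x⁻¹ * ⟨c⁻¹ * (g : GalK F) * c, h3⟩ * x) =
        χ'.1 ⟨c⁻¹ * (g : GalK F) * c, h3⟩ := by
      rw [map_mul, map_mul, map_inv, mul_comm, mul_inv_cancel_left]
    rw [e4, e6, e7]
  rw [hdif, hdif]
  simp only [e3] at e2
  linear_combination e1 - e2

end

end Pool.Agent.H89.QT
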