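import Mathlib

/-!
# QT.Chi0 : adjoining the square root of an element of valuation one to a number field

`M / K` quadratic, `s ∈ 𝓞 M` with `s ^ 2 = x`, `x ∈ P`, `x ∉ P ^ 2`: only one prime `W` of `M` lies above `P` and the residue field does not change.
-/

set_option autoImplicit false

open scoped NumberField
open IsDedekindDomain

namespace Pool.Agent.H89.QT

theorem chi_ram (K M : Type) [Field K] [NumberField K] [Field M] [NumberField M] [Algebra K M]
    (h2 : Module.finrank K M = 2) (P : Ideal (𝓞 K)) (hPp : P.IsPrime) (hP0 : P ≠ ⊥) (x : 𝓞 K)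
    (hx : x ∈ P) (hx2 : x ∉ P ^ 2) (s : 𝓞 M) (hs : s ^ 2 = algebraMap (𝓞 K) (𝓞 M) x)
    (W : Ideal (𝓞 M)) (hWp : W.IsPrime) (hW : W.comap (algebraMap (𝓞 K) (𝓞 M)) = P) :
    (∀ W' : Ideal (𝓞 M), W'.IsPrime → W'.comap (algebraMap (𝓞 K) (𝓞 M)) = P → W' = W) ∧
      ∀ z : 𝓞 M, ∃ a : 𝓞 K, z - algebraMap (𝓞 K) (𝓞 M) a ∈ W := by
  have hPm : P.IsMaximal := hPp.isMaximal hP0
  have hlo : W.LiesOver P := ⟨hW.symm⟩
  have hsP : Ideal.span {x} ⊔ P ^ 2 = P := by
    have h3 := Ideal.eq_prime_pow_of_succ_lt_of_le (P := P) (I := Ideal.span {x} ⊔ P ^ 2) hP0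
      (i := 1) (by
        refine lt_of_le_of_ne le_sup_right fun h => hx2 ?_
        have h4 := (le_sup_left : Ideal.span {x} ≤ Ideal.span {x} ⊔ P ^ 2)
          (Ideal.mem_span_singleton_self x)
        rwa [← h] at h4) (by
        rw [pow_one]
        exact sup_le ((Ideal.span_singleton_le_iff_mem _).2 hx) (Ideal.pow_le_self two_ne_zero))
    rwa [pow_one] at h3
  have hsW : s ∈ W := by
    refine hWp.mem_of_pow_mem 2 ?_
    rw [hs]
    rw [← hW] at hx
    exact hx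
  have hmap : P.map (algebraMap (𝓞 K) (𝓞 M)) ≤ W := by
    rw [Ideal.map_le_iff_le_comap, hW]
  have hmap2 : P.map (algebraMap (𝓞 K) (𝓞 M)) ≤ W ^ 2 := by
    rw [Ideal.map_le_iff_le_comap]
    intro a ha
    rw [← hsP] at ha
    obtain ⟨b, hb, d, hd, rfl⟩ := Submodule.mem_sup.1 ha
    obtain ⟨r, rfl⟩ := Ideal.mem_span_singleton'.1 hb
    rw [Ideal.mem_comap, map_add, map_mul, ← hs]
    refine Ideal.add_mem _ (Ideal.mul_mem_left _ _ (Ideal.pow_mem_pow hsW 2)) ?_
    have h4 := Ideal.mem_map_of_mem (algebraMap (𝓞 K) (𝓞 M)) hd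
    rw [Ideal.map_pow] at h4
    exact Ideal.pow_right_mono hmap 2 h4
  have he1 : P.ramificationIdx' W ≠ 1 := (Ideal.ramificationIdx'_ne_one_iff hmap).2 hmap2
  have he0 : P.ramificationIdx' W ≠ 0 :=
    Ideal.IsDedekindDomain.ramificationIdx'_ne_zero_of_liesOver _ hP0
  have hf0 : P.inertiaDeg' W ≠ 0 := Ideal.inertiaDeg'_ne_zero P W
  have hsum := Ideal.sum_ramification_inertia (𝓞 M) K M (p := P) hP0
  rw [h2] at hsum
  have hWm : W ∈ IsDedekindDomain.primesOverFinset P (𝓞 M) :=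
    (IsDedekindDomain.mem_primesOverFinset_iff hP0 _).2 ⟨hWp, hlo⟩
  have hprod : P.ramificationIdx' W * P.inertiaDeg' W ≤ 2 := by
    rw [← hsum]
    exact Finset.single_le_sum (f := fun P' => P.ramificationIdx' P' * P.inertiaDeg' P')
      (fun _ _ => Nat.zero_le _) hWm
  have hf1 : P.inertiaDeg' W = 1 := by
    have h5 : 2 ≤ P.ramificationIdx' W := by omega
    have h6 : 1 ≤ P.inertiaDeg' W := by omega
    nlinarith
  constructor
  · intro W' hW'p hW'
    by_contra hne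
    have hlo' : W'.LiesOver P := ⟨hW'.symm⟩
    have hW'm : W' ∈ IsDedekindDomain.primesOverFinset P (𝓞 M) :=
      (IsDedekindDomain.mem_primesOverFinset_iff hP0 _).2 ⟨hW'p, hlo'⟩
    have he0' : P.ramificationIdx' W' ≠ 0 :=
      Ideal.IsDedekindDomain.ramificationIdx'_ne_zero_of_liesOver _ hP0
    have hf0' : P.inertiaDeg' W' ≠ 0 := Ideal.inertiaDeg'_ne_zero P W'
    have h7 : P.ramificationIdx' W * P.inertiaDeg' W + P.ramificationIdx' W' * P.inertiaDeg' W' ≤ 2 := by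
      rw [← hsum, ← Finset.sum_pair (f := fun P' => P.ramificationIdx' P' * P.inertiaDeg' P')
        (Ne.symm hne)]
      refine Finset.sum_le_sum_of_subset ?_
      intro y hy
      rcases Finset.mem_insert.1 hy with rfl | hy
      · exact hWm
      · rw [Finset.mem_singleton.1 hy]
        exact hW'm
    have h8 : 2 ≤ P.ramificationIdx' W := by omega
    have h9 : 1 ≤ P.ramificationIdx' W' * P.inertiaDeg' W' :=
      Nat.one_le_iff_ne_zero.2 (mul_ne_zero he0' hf0')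
    rw [hf1, mul_one] at h7
    omega
  · intro z
    have h10 : Module.finrank (𝓞 K ⧸ P) (𝓞 M ⧸ W) = 1 := by
      rw [← hf1, Ideal.inertiaDeg'_algebraMap]
    let _ : Field (𝓞 K ⧸ P) := Ideal.Quotient.field _
    have hnt : Nontrivial (𝓞 M ⧸ W) := Ideal.Quotient.nontrivial_iff.2 hWp.ne_top
    obtain ⟨c, hc⟩ := (finrank_eq_one_iff_of_nonzero' (1 : 𝓞 M ⧸ W) one_ne_zero).1 h10
      (Ideal.Quotient.mk W z)
    obtain ⟨a, rfl⟩ := Ideal.Quotient.mk_surjective c
    refine ⟨a, ?_⟩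
    rw [← Ideal.Quotient.eq, ← hc, Algebra.smul_def, mul_one]
    rfl

end Pool.Agent.H89.QT
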