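import Pool.Agent.H89.QT.Chi0
import Pool.Agent.H19.QT.Deg

/-!
# QT.Chi1 : an element of the inertia group which moves the square root of an element of valuation one
-/

set_option autoImplicit false

open scoped Pointwise NumberField
open Matrix IsDedekindDomain Pool.Agent.H71.Patch Pool.Agent.H51.QT Pool.Agent.H19.QT

namespace Pool.Agent.H89.QT

variable {F : Type} [Field F] [NumberField F]

theorem chi_cont : letI _ : TopologicalSpace (Zbar F) := ⊥
    ContinuousSMul (GalK F) (Zbar F) := by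
  let _ : TopologicalSpace (Zbar F) := ⊥
  have _ : DiscreteTopology (Zbar F) := ⟨rfl⟩
  rw [continuousSMul_iff_stabilizer_isOpen]
  intro x
  have h1 := stabilizer_isOpen_of_isIntegral (K := F) (L := AlgebraicClosure F)
    (x : AlgebraicClosure F)
  convert h1 using 1
  ext g
  simp only [SetLike.mem_coe, MulAction.mem_stabilizer_iff]
  constructor
  · intro h
    exact congrArg Subtype.val h
  · intro h
    exact Subtype.ext h

/-- the Galois group of `M` is transitive on the primes above a prime of `M` -/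
theorem chi_trans (M : IntermediateField F (AlgebraicClosure F)) [FiniteDimensional F M] {Q Q' : Ideal (Zbar F)}
    (hQ : Q.IsPrime) (hQ' : Q'.IsPrime) (h : below M Q = below M Q') :
    ∃ g ∈ M.fixingSubgroup, Q' = g • Q := by
  letI alg : Algebra (𝓞 M) (Zbar F) := (incl M).toAlgebra
  haveI inv : Algebra.IsInvariant (𝓞 M) (Zbar F) M.fixingSubgroup := invariant M
  let _ : TopologicalSpace (Zbar F) := ⊥
  have _ : DiscreteTopology (Zbar F) := ⟨rfl⟩
  have hc : ContinuousSMul (GalK F) (Zbar F) := chi_cont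
  have hC : IsClosed (M.fixingSubgroup : Set (GalK F)) := M.fixingSubgroup_isClosed
  have hCc : CompactSpace M.fixingSubgroup := isCompact_iff_compactSpace.1 hC.isCompact
  have hCs : ContinuousSMul M.fixingSubgroup (Zbar F) := ⟨by
    have h2 : Continuous fun p : M.fixingSubgroup × Zbar F => ((p.1 : GalK F), p.2) := by fun_prop
    exact Continuous.comp (g := fun p : GalK F × Zbar F => p.1 • p.2) continuous_smul h2⟩
  have hsc : SMulCommClass M.fixingSubgroup (𝓞 M) (Zbar F) := ⟨fun c a b => by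
    have h2 : c • (incl M a) = incl M a := smul_incl c.2 a
    rw [Algebra.smul_def, Algebra.smul_def, smul_mul']
    congr 1⟩
  obtain ⟨g, hg⟩ := Algebra.IsInvariant.exists_smul_of_under_eq_of_profinite
    (A := 𝓞 M) (B := Zbar F) (G := M.fixingSubgroup) Q Q' h
  exact ⟨g, g.2, hg⟩

/-- an element of the decomposition group which is trivial on the residue field of `M` acts on the
residue field of `Q` like an element of the Galois group of `M` -/
theorem chi_lift (M : IntermediateField F (AlgebraicClosure F)) [FiniteDimensional F M] {Q : Ideal (Zbar F)}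
    (hQ : Q.IsPrime) {g : GalK F} (hg : g ∈ Dec Q)
    (h : ∀ z : 𝓞 M, g • incl M z - incl M z ∈ Q) :
    ∃ g' ∈ M.fixingSubgroup, g' ∈ Dec Q ∧ ∀ z : Zbar F, g' • z - g • z ∈ Q := by
  letI alg : Algebra (𝓞 M) (Zbar F) := (incl M).toAlgebra
  haveI inv : Algebra.IsInvariant (𝓞 M) (Zbar F) M.fixingSubgroup := invariant M
  let _ : TopologicalSpace (Zbar F) := ⊥
  have _ : DiscreteTopology (Zbar F) := ⟨rfl⟩
  have hc : ContinuousSMul (GalK F) (Zbar F) := chi_cont
  have hC : IsClosed (M.fixingSubgroup : Set (GalK F)) := M.fixingSubgroup_isClosed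
  have hCc : CompactSpace M.fixingSubgroup := isCompact_iff_compactSpace.1 hC.isCompact
  have hCs : ContinuousSMul M.fixingSubgroup (Zbar F) := ⟨by
    have h2 : Continuous fun p : M.fixingSubgroup × Zbar F => ((p.1 : GalK F), p.2) := by fun_prop
    exact Continuous.comp (g := fun p : GalK F × Zbar F => p.1 • p.2) continuous_smul h2⟩
  have hsc : SMulCommClass M.fixingSubgroup (𝓞 M) (Zbar F) := ⟨fun c a b => by
    have h2 : c • (incl M a) = incl M a := smul_incl c.2 a
    rw [Algebra.smul_def, Algebra.smul_def, smul_mul']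
    congr 1⟩
  haveI hlo : Q.LiesOver (below M Q) := ⟨rfl⟩
  have hmap : Q = Ideal.map (MulSemiringAction.toRingEquiv (GalK F) (Zbar F) g) Q := by
    have h3 := MulAction.mem_stabilizer_iff.1 hg
    rw [Ideal.pointwise_smul_def] at h3
    exact h3.symm
  let σ : (Zbar F ⧸ Q) ≃ₐ[𝓞 M ⧸ below M Q] (Zbar F ⧸ Q) :=
    { Ideal.quotientEquiv Q Q (MulSemiringAction.toRingEquiv (GalK F) (Zbar F) g) hmap with
      commutes' := by
        intro r
        obtain ⟨z, rfl⟩ := Ideal.Quotient.mk_surjective r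
        show Ideal.Quotient.mk Q (g • incl M z) = Ideal.Quotient.mk Q (incl M z)
        rw [Ideal.Quotient.eq]
        exact h z }
  obtain ⟨τ, hτ⟩ := Ideal.Quotient.stabilizerHom_surjective_of_profinite
    (G := M.fixingSubgroup) (below M Q) Q σ
  refine ⟨τ.1.1, τ.1.2, τ.2, fun z => ?_⟩
  rw [← Ideal.Quotient.eq]
  exact DFunLike.congr_fun hτ (Ideal.Quotient.mk Q z)

theorem chi_abs (K : IntermediateField F (AlgebraicClosure F)) [FiniteDimensional F K]
    {v : HeightOneSpectrum (𝓞 K)} {Q : Ideal (Zbar F)} (hv : Over K v Q) (x : 𝓞 K)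
    (hx : x ∈ v.asIdeal) (hx2 : x ∉ v.asIdeal ^ 2) (s : Zbar F) (hs : s ^ 2 = incl K x) :
    ∃ g ∈ K.fixingSubgroup, Acts Q g 1 ∧ g • s = - s := by
  haveI := numberField_of K
  have hQ := hv.1
  have hpm : ∀ g ∈ K.fixingSubgroup, g • s = s ∨ g • s = - s := by
    intro g hg
    have h3 : (g • s) ^ 2 = s ^ 2 := by rw [← smul_pow', hs, smul_incl hg]
    exact sq_eq_sq_iff_eq_or_eq_neg.1 h3
  -- `s` is not in `K`
  obtain ⟨g0, hg0, hg0s⟩ : ∃ g ∈ K.fixingSubgroup, g • s ≠ s := by
    by_contra hcon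
    push Not at hcon
    letI alg : Algebra (𝓞 K) (Zbar F) := (incl K).toAlgebra
    haveI inv : Algebra.IsInvariant (𝓞 K) (Zbar F) K.fixingSubgroup := invariant K
    obtain ⟨t, ht⟩ := Algebra.IsInvariant.isInvariant (A := 𝓞 K) (G := K.fixingSubgroup) s
      (fun g => hcon g g.2)
    have ht' : incl K t = s := ht
    have h3 : t ^ 2 = x := incl_inj K (by rw [map_pow, ht', hs])
    have h4 : t ∈ v.asIdeal := v.isPrime.mem_of_pow_mem 2 (by rw [h3]; exact hx)
    exact hx2 (by rw [← h3]; exact Ideal.pow_mem_pow h4 2)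
  have hg0n : g0 • s = - s := (hpm g0 hg0).resolve_left hg0s
  -- the quadratic extension
  let M : IntermediateField F (AlgebraicClosure F) :=
    K ⊔ IntermediateField.adjoin F {(s : AlgebraicClosure F)}
  haveI : FiniteDimensional F (IntermediateField.adjoin F {(s : AlgebraicClosure F)}) :=
    IntermediateField.adjoin.finiteDimensional (Algebra.IsIntegral.isIntegral _)
  haveI hMf : FiniteDimensional F M := IntermediateField.finiteDimensional_sup _ _
  haveI := numberField_of M
  have hKM : K ≤ M := le_sup_left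
  have hMK : M.fixingSubgroup ≤ K.fixingSubgroup := IntermediateField.fixingSubgroup_antitone hKM
  have hmemM : ∀ g, g ∈ M.fixingSubgroup ↔ g ∈ K.fixingSubgroup ∧ g • s = s := by
    intro g
    constructor
    · intro hg
      refine ⟨hMK hg, Subtype.ext ?_⟩
      have h3 : (s : AlgebraicClosure F) ∈ M :=
        (le_sup_right : _ ≤ M) (IntermediateField.mem_adjoin_simple_self F _)
      exact (M.mem_fixingSubgroup_iff g).1 hg _ h3
    · rintro ⟨h3, h4⟩
      show g ∈ (K ⊔ IntermediateField.adjoin F {(s : AlgebraicClosure F)}).fixingSubgroup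
      rw [IntermediateField.fixingSubgroup_sup]
      refine Subgroup.mem_inf.2 ⟨h3, ?_⟩
      have h5 : IntermediateField.adjoin F {(s : AlgebraicClosure F)} ≤
          IntermediateField.fixedField (Subgroup.zpowers g) := by
        rw [IntermediateField.adjoin_simple_le_iff, IntermediateField.mem_fixedField_iff]
        intro k hk
        obtain ⟨n, rfl⟩ := Subgroup.mem_zpowers_iff.1 hk
        have h6 : g ^ n ∈ MulAction.stabilizer (GalK F) s := zpow_mem h4 n
        exact congrArg Subtype.val (MulAction.mem_stabilizer_iff.1 h6)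
      exact (IntermediateField.le_iff_le _ _).1 h5 (Subgroup.mem_zpowers g)
  letI algKM : Algebra K M := (IntermediateField.inclusion hKM).toRingHom.toAlgebra
  haveI : IsScalarTower F K M := IsScalarTower.of_algebraMap_eq fun _ => rfl
  have hdeg : Module.finrank K M = 2 := by
    have h3 : M.fixingSubgroup.relIndex K.fixingSubgroup = 2 := by
      rw [Subgroup.relIndex_eq_two_iff_exists_notMem_and']
      refine ⟨g0, hg0, fun h => hg0s ((hmemM g0).1 h).2, fun b hb => ?_⟩
      rcases hpm b hb with h4 | h4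
      · exact Or.inr ((hmemM b).2 ⟨hb, h4⟩)
      · refine Or.inl ((hmemM _).2 ⟨mul_mem hg0 hb, ?_⟩)
        rw [mul_smul, h4, smul_neg, hg0n, neg_neg]
    have h5 := Subgroup.relIndex_mul_index hMK
    rw [h3, ← IntermediateField.finrank_eq_fixingSubgroup_index,
      ← IntermediateField.finrank_eq_fixingSubgroup_index,
      ← Module.finrank_mul_finrank F K M, mul_comm] at h5
    exact (Nat.eq_of_mul_eq_mul_left Module.finrank_pos h5).symm
  -- `s` as an integer of `M`
  obtain ⟨sM, hsM⟩ : ∃ t : 𝓞 M, incl M t = s := by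
    letI alg : Algebra (𝓞 M) (Zbar F) := (incl M).toAlgebra
    haveI inv : Algebra.IsInvariant (𝓞 M) (Zbar F) M.fixingSubgroup := invariant M
    obtain ⟨t, ht⟩ := Algebra.IsInvariant.isInvariant (A := 𝓞 M) (G := M.fixingSubgroup) s
      (fun g => ((hmemM g).1 g.2).2)
    exact ⟨t, ht⟩
  have hincl : ∀ z : 𝓞 K, incl M (algebraMap (𝓞 K) (𝓞 M) z) = incl K z := fun z => rfl
  have hsM2 : sM ^ 2 = algebraMap (𝓞 K) (𝓞 M) x :=
    incl_inj M (by rw [map_pow, hsM, hs, hincl])
  have hbelow : ∀ Q : Ideal (Zbar F),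
      (below M Q).comap (algebraMap (𝓞 K) (𝓞 M)) = below K Q := fun Q => rfl
  obtain ⟨r1, r2⟩ := chi_ram K M hdeg v.asIdeal v.isPrime v.ne_bot x hx hx2 sM hsM2 (below M Q)
    (Ideal.comap_isPrime _ _) ((hbelow Q).trans hv.2)
  -- move `g0` into the decomposition group
  have hQ0 : (g0 • Q).IsPrime := hQ.smul _
  have hb0 : below K (g0 • Q) = v.asIdeal := by
    rw [← hv.2]
    ext z
    show incl K z ∈ g0 • Q ↔ incl K z ∈ Q
    rw [Ideal.mem_pointwise_smul_iff_inv_smul_mem, smul_incl (inv_mem hg0)]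
  have h3 := r1 (below M (g0 • Q)) (Ideal.comap_isPrime _ _) ((hbelow _).trans hb0)
  obtain ⟨h, hh, hhQ⟩ := chi_trans M hQ hQ0 h3.symm
  have hg1 : h⁻¹ * g0 ∈ Dec Q := by
    rw [MulAction.mem_stabilizer_iff, mul_smul, hhQ, inv_smul_smul]
  have hg1K : h⁻¹ * g0 ∈ K.fixingSubgroup := mul_mem (inv_mem (hMK hh)) hg0
  have hg1s : (h⁻¹ * g0) • s = - s := by
    have h4 : h⁻¹ • s = s := ((hmemM _).1 (inv_mem hh)).2
    rw [mul_smul, hg0n, smul_neg, h4]
  obtain ⟨g', hg'M, hg'Q, hg'⟩ := chi_lift M hQ hg1 (by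
    intro z
    obtain ⟨a, ha⟩ := r2 z
    have h4 : incl M z - incl K a ∈ Q := by
      have h5 : incl M (z - algebraMap (𝓞 K) (𝓞 M) a) ∈ Q := ha
      rwa [map_sub, hincl] at h5
    have h6 := dec_mem hg1 h4
    rw [smul_sub, smul_incl hg1K] at h6
    have h7 : (h⁻¹ * g0) • incl M z - incl M z =
        ((h⁻¹ * g0) • incl M z - incl K a) - (incl M z - incl K a) := by ring
    rw [h7]
    exact Q.sub_mem h6 h4)
  refine ⟨g'⁻¹ * (h⁻¹ * g0), mul_mem (inv_mem (hMK hg'M)) hg1K, fun z => ?_, ?_⟩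
  · have h4 := dec_mem (inv_mem hg'Q) (hg' z)
    rw [smul_sub, inv_smul_smul, ← mul_smul] at h4
    rw [pow_one]
    have h5 := Q.neg_mem h4
    rwa [neg_sub] at h5
  · have h4 : g'⁻¹ • s = s := ((hmemM _).1 (inv_mem hg'M)).2
    rw [mul_smul, hg1s, smul_neg, h4]

end Pool.Agent.H89.QT
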