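import Pool.Agent.H71.Patch.Local

/-!
# QT.Fks : a power of a Frobenius element determines its prime

`Q`, `Q'` primes of the ring of all algebraic integers, not above `2`; `g = φ ^ j` the power of a Frobenius element at `Q` which
fixes also `Q'`. Then `Q = Q'`. (A special case of the theorem of F. K. Schmidt.)

PROOF. Let `C` be the closure of the group generated by `g` and `A` the ring of invariants of `C`. If `Q ≠ Q'` then `Q ∩ A ≠ Q' ∩ A`, because `C` is transitive on the primes above a prime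
of `A` and fixes `Q`. So there is `e ∈ A` with `e = 1` modulo `Q` and `e = 0` modulo `Q'`. Let `w ^ (q ^ j - 1) = -1`; the root of unity `w ^ 2` is fixed by `g`.
Let `s ^ 2 = 1 - e + e w ^ 2`; then `g s = ± s`, the sign is `1` modulo `Q'` and `-1` modulo `Q`.
-/

set_option autoImplicit false

open scoped Pointwise NumberField
open IsDedekindDomain Pool.Agent.H71.Patch

namespace Pool.Agent.H89.QT

variable {F : Type*} [Field F] [NumberField F]

theorem fks_stab_closed (Q : Ideal (Zbar F)) : IsClosed ((Dec Q : Subgroup (GalK F)) : Set (GalK F)) := by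
  let _ : TopologicalSpace (Zbar F) := ⊥
  have _ : DiscreteTopology (Zbar F) := ⟨rfl⟩
  have hc : ContinuousSMul (GalK F) (Zbar F) := by
    rw [continuousSMul_iff_stabilizer_isOpen]
    intro x
    have h1 := stabilizer_isOpen_of_isIntegral (K := F) (L := AlgebraicClosure F)
      (x : AlgebraicClosure F)
    convert h1 using 1
    ext g
    simp only [SetLike.mem_coe, MulAction.mem_stabilizer_iff]
    constructor
    · intro h
      exact congrArg Subtype.val h
    · intro h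
      exact Subtype.ext h
  have h1 : ((Dec Q : Subgroup (GalK F)) : Set (GalK F)) =
      ⋂ x : Zbar F, {g : GalK F | g⁻¹ • x ∈ Q ↔ x ∈ Q} := by
    ext g
    rw [Set.mem_iInter, SetLike.mem_coe, MulAction.mem_stabilizer_iff, Ideal.ext_iff]
    refine forall_congr' fun x => ?_
    rw [Set.mem_setOf_eq, Ideal.pointwise_smul_eq_comap, Ideal.mem_comap]
    rfl
  rw [h1]
  refine isClosed_iInter fun x => ?_
  have h2 : Continuous fun g : GalK F => g⁻¹ • x := continuous_inv.smul continuous_const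
  have h3 : IsClopen {y : Zbar F | y ∈ Q ↔ x ∈ Q} := isClopen_discrete _
  exact (h3.preimage h2).isClosed

theorem fks_sep {g : GalK F} {Q Q' : Ideal (Zbar F)} [Q.IsMaximal] [Q'.IsMaximal]
    (h : g ∈ Dec Q) (hne : Q ≠ Q') : ∃ e : Zbar F, g • e = e ∧ e - 1 ∈ Q ∧ e ∈ Q' := by
  let _ : TopologicalSpace (Zbar F) := ⊥
  have _ : DiscreteTopology (Zbar F) := ⟨rfl⟩
  have hc : ContinuousSMul (GalK F) (Zbar F) := by
    rw [continuousSMul_iff_stabilizer_isOpen]
    intro x
    have h1 := stabilizer_isOpen_of_isIntegral (K := F) (L := AlgebraicClosure F)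
      (x : AlgebraicClosure F)
    convert h1 using 1
    ext g
    simp only [SetLike.mem_coe, MulAction.mem_stabilizer_iff]
    constructor
    · intro h
      exact congrArg Subtype.val h
    · intro h
      exact Subtype.ext h
  let C : Subgroup (GalK F) := (Subgroup.zpowers g).topologicalClosure
  have hC : IsClosed (C : Set (GalK F)) := Subgroup.isClosed_topologicalClosure _
  have hgC : g ∈ C := Subgroup.le_topologicalClosure _ (Subgroup.mem_zpowers g)
  have hCQ : C ≤ Dec Q := Subgroup.topologicalClosure_minimal _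
    (by rw [Subgroup.zpowers_le]; exact h) (fks_stab_closed Q)
  have hCc : CompactSpace C := isCompact_iff_compactSpace.1 hC.isCompact
  have hCs : ContinuousSMul C (Zbar F) := ⟨by
    have h2 : Continuous fun p : C × Zbar F => ((p.1 : GalK F), p.2) := by fun_prop
    exact Continuous.comp (g := fun p : GalK F × Zbar F => p.1 • p.2) continuous_smul h2⟩
  let A : Subalgebra (𝓞 F) (Zbar F) := FixedPoints.subalgebra (𝓞 F) (Zbar F) C
  have hA : ∀ x : Zbar F, x ∈ A ↔ ∀ c : C, c • x = x := fun x => Iff.rfl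
  have hinv : Algebra.IsInvariant A (Zbar F) C := ⟨fun b hb => ⟨⟨b, hb⟩, rfl⟩⟩
  have hsc : SMulCommClass C A (Zbar F) := ⟨fun c a b => by
    have h2 : c • (a : Zbar F) = a := a.2 c
    rw [Algebra.smul_def, Algebra.smul_def, smul_mul']
    congr 1⟩
  have hint : Algebra.IsIntegral A (Zbar F) :=
    Algebra.IsInvariant.isIntegral_of_profinite (G := C)
  have hu : Q.under A ≠ Q'.under A := by
    intro heq
    obtain ⟨c, hc'⟩ := Algebra.IsInvariant.exists_smul_of_under_eq_of_profinite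
      (A := A) (B := Zbar F) (G := C) Q Q' heq
    apply hne
    rw [hc']
    exact (hCQ c.2).symm
  have m1 : (Q.under A).IsMaximal := Ideal.isMaximal_comap_of_isIntegral_of_isMaximal Q
  have m2 : (Q'.under A).IsMaximal := Ideal.isMaximal_comap_of_isIntegral_of_isMaximal Q'
  have h3 := Ideal.IsMaximal.coprime_of_ne m1 m2 hu
  have h4 : (1 : A) ∈ Q.under A ⊔ Q'.under A := by rw [h3]; trivial
  obtain ⟨f, hf, e, he, hfe⟩ := Submodule.mem_sup.1 h4
  refine ⟨e, e.2 ⟨g, hgC⟩, ?_, he⟩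
  have h5 : (e : Zbar F) - 1 = - (f : Zbar F) := by
    have := congrArg (Subtype.val) hfe
    push_cast at this
    rw [← this]
    ring
  rw [h5]
  exact Q.neg_mem hf

theorem fks_pow {Q : Ideal (Zbar F)} {φ : GalK F} (hφ : IsArithFrobAt (𝓞 F) φ Q) (j : ℕ)
    (x : Zbar F) : φ ^ j • x - x ^ (Nat.card (𝓞 F ⧸ Q.under (𝓞 F)) ^ j) ∈ Q := by
  induction j with
  | zero => simp
  | succ j ih =>
    have h1 : φ • (φ ^ j • x) - (φ ^ j • x) ^ Nat.card (𝓞 F ⧸ Q.under (𝓞 F)) ∈ Q :=
      hφ (φ ^ j • x)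
    rw [← Ideal.Quotient.eq] at h1 ih ⊢
    rw [pow_succ' φ j, mul_smul, h1, map_pow, ih, ← map_pow, ← pow_mul, ← pow_succ]

/-- a power of a Frobenius element at `Q` does not fix another prime -/
theorem fks {Q Q' : Ideal (Zbar F)} (hQ : Q.IsMaximal) (hQ' : Q'.IsMaximal)
    (h2 : (2 : Zbar F) ∉ Q) (h2' : (2 : Zbar F) ∉ Q') {φ : GalK F}
    (hφ : IsArithFrobAt (𝓞 F) φ Q) {j : ℕ} (hj : 0 < j) (hg : φ ^ j ∈ Dec Q') : Q = Q' := by
  by_contra hne
  have hφD : φ ∈ Dec Q := hφ.mem_stabilizer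
  have hgD : φ ^ j ∈ Dec Q := pow_mem hφD j
  obtain ⟨e, he, heQ, heQ'⟩ := fks_sep hgD hne
  set q := Nat.card (𝓞 F ⧸ Q.under (𝓞 F)) with hq
  have hfin : Finite (𝓞 F ⧸ Q.under (𝓞 F)) := AlgHom.IsArithFrobAt.finite_quotient hφ
  have hint : Algebra.IsIntegral (𝓞 F) (Zbar F) := inferInstance
  have hPm : (Q.under (𝓞 F)).IsMaximal := Ideal.isMaximal_comap_of_isIntegral_of_isMaximal Q
  have hnt : Nontrivial (𝓞 F ⧸ Q.under (𝓞 F)) := Ideal.Quotient.nontrivial_iff.2 hPm.ne_top
  have hq2 : 1 < q := Finite.one_lt_card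
  -- the cardinality is in `Q`
  have hqQ : ((q : ℕ) : Zbar F) ∈ Q := by
    have h1 : ((q : ℕ) : 𝓞 F ⧸ Q.under (𝓞 F)) = 0 := by
      have := Fintype.ofFinite (𝓞 F ⧸ Q.under (𝓞 F))
      rw [hq, Nat.card_eq_fintype_card]
      exact Nat.cast_card_eq_zero _
    rw [← map_natCast (Ideal.Quotient.mk (Q.under (𝓞 F))), Ideal.Quotient.eq_zero_iff_mem,
      Ideal.under_def, Ideal.mem_comap, map_natCast] at h1
    exact h1
  have hqodd : ¬ 2 ∣ q := by
    intro hd
    have : Fact (Nat.Prime 2) := ⟨Nat.prime_two⟩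
    obtain ⟨a, ha⟩ := exists_prime_addOrderOf_dvd_card' (G := 𝓞 F ⧸ Q.under (𝓞 F)) 2 hd
    have ha0 : a ≠ 0 := by
      rintro rfl
      rw [addOrderOf_zero] at ha
      omega
    have h3 : (2 : ℕ) • a = 0 := by rw [← ha]; exact addOrderOf_nsmul_eq_zero a
    obtain ⟨b, rfl⟩ := Ideal.Quotient.mk_surjective a
    rw [nsmul_eq_mul, ← map_natCast (Ideal.Quotient.mk (Q.under (𝓞 F))), ← map_mul,
      Ideal.Quotient.eq_zero_iff_mem] at h3
    rcases hPm.isPrime.mem_or_mem h3 with h4 | h4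
    · apply h2
      have h5 : algebraMap (𝓞 F) (Zbar F) ((2 : ℕ) : 𝓞 F) ∈ Q := h4
      rw [map_natCast] at h5
      exact_mod_cast h5
    · exact ha0 (Ideal.Quotient.eq_zero_iff_mem.2 h4)
  obtain ⟨n, hn⟩ : ∃ n, q ^ j = n + 1 := ⟨q ^ j - 1, by
    have : 0 < q ^ j := Nat.pos_of_ne_zero (pow_ne_zero _ (by omega))
    omega⟩
  have hn0 : 0 < n := by
    have : 1 < q ^ j := Nat.one_lt_pow hj.ne' hq2
    omega
  have hneven : 2 ∣ n := by
    have h3 : ¬ 2 ∣ q ^ j := fun h => hqodd (Nat.Prime.dvd_of_dvd_pow Nat.prime_two h)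
    omega
  -- the root of unity
  obtain ⟨w0, hw0⟩ := IsAlgClosed.exists_pow_nat_eq (-1 : AlgebraicClosure F) hn0
  have hw0i : IsIntegral (𝓞 F) w0 := by
    refine IsIntegral.of_pow hn0 ?_
    rw [hw0]
    exact (isIntegral_one).neg
  let w : Zbar F := ⟨w0, hw0i⟩
  have hw : w ^ n = -1 := Subtype.ext (by push_cast; exact hw0)
  have hx : (w ^ 2) ^ n = 1 := by rw [← pow_mul, mul_comm, pow_mul, hw]; ring
  have hnQ : ((n : ℕ) : Zbar F) ∉ Q := by
    intro h3
    have h4 : ((q ^ j : ℕ) : Zbar F) ∈ Q := by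
      push_cast
      exact Q.pow_mem_of_mem hqQ j hj
    rw [hn] at h4
    push_cast at h4
    have h5 := Q.sub_mem h4 h3
    rw [add_sub_cancel_left] at h5
    exact hQ.ne_top ((Ideal.eq_top_iff_one _).2 h5)
  have hφx : ∀ i : ℕ, φ ^ i • (w ^ 2) = (w ^ 2) ^ (q ^ i) := by
    intro i
    induction i with
    | zero => simp
    | succ i ih =>
      have h3 : φ • (w ^ 2) = (w ^ 2) ^ q := AlgHom.IsArithFrobAt.apply_of_pow_eq_one hφ hx hnQ
      rw [pow_succ' φ i, mul_smul, ih, smul_pow', h3, ← pow_mul, ← pow_succ']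
  have hgx : φ ^ j • (w ^ 2) = w ^ 2 := by
    rw [hφx, hn, pow_succ, hx, one_mul]
  -- the square root
  let α : Zbar F := 1 - e + e * w ^ 2
  have hα : φ ^ j • α = α := by
    show φ ^ j • (1 - e + e * w ^ 2) = 1 - e + e * w ^ 2
    rw [smul_add, smul_sub, smul_mul', he, hgx, smul_one]
  obtain ⟨s0, hs0⟩ := IsAlgClosed.exists_pow_nat_eq (α : AlgebraicClosure F) (n := 2) (by norm_num)
  have hs0i : IsIntegral (𝓞 F) s0 := by
    refine IsIntegral.of_pow (n := 2) (by norm_num) ?_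
    rw [hs0]
    exact α.2
  let s : Zbar F := ⟨s0, hs0i⟩
  have hs : s ^ 2 = α := Subtype.ext (by push_cast; exact hs0)
  have hgs : φ ^ j • s = s ∨ φ ^ j • s = - s := by
    have h3 : (φ ^ j • s) ^ 2 = s ^ 2 := by rw [← smul_pow', hs, hα]
    exact sq_eq_sq_iff_eq_or_eq_neg.1 h3
  -- at `Q'`
  have hmem : ∀ y : Zbar F, y ∈ Q' → φ ^ j • y ∈ Q' := by
    intro y hy
    have h3 : φ ^ j • y ∈ φ ^ j • Q' := Ideal.smul_mem_pointwise_smul _ _ _ hy
    rwa [MulAction.mem_stabilizer_iff.1 hg] at h3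
  have hs1 : (s - 1) * (s + 1) ∈ Q' := by
    have h3 : (s - 1) * (s + 1) = e * (w ^ 2 - 1) := by
      have : (s - 1) * (s + 1) = s ^ 2 - 1 := by ring
      rw [this, hs]
      show 1 - e + e * w ^ 2 - 1 = _
      ring
    rw [h3]
    exact Q'.mul_mem_right _ heQ'
  have hgs' : φ ^ j • s = s := by
    refine hgs.resolve_right fun h3 => ?_
    rcases hQ'.isPrime.mem_or_mem hs1 with h4 | h4
    · have h5 := Q'.add_mem h4 (hmem _ h4)
      rw [smul_sub, h3, smul_one] at h5
      have h6 : s - 1 + (-s - 1) = -2 := by ring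
      rw [h6] at h5
      exact h2' (neg_mem_iff.1 h5)
    · have h5 := Q'.add_mem h4 (hmem _ h4)
      rw [smul_add, h3, smul_one] at h5
      have h6 : s + 1 + (-s + 1) = 2 := by ring
      rw [h6] at h5
      exact h2' h5
  -- at `Q`
  have h7 := fks_pow hφ j s
  rw [hgs', ← hq, hn] at h7
  have h8 : s ^ 2 - w ^ 2 ∈ Q := by
    have : s ^ 2 - w ^ 2 = (e - 1) * (w ^ 2 - 1) := by
      rw [hs]
      show 1 - e + e * w ^ 2 - w ^ 2 = _
      ring
    rw [this]
    exact Q.mul_mem_right _ heQ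
  obtain ⟨k, hk⟩ := hneven
  have h9 : s ^ n + 1 ∈ Q := by
    rw [← Ideal.Quotient.eq] at h8
    have h10 : Ideal.Quotient.mk Q (s ^ n) = Ideal.Quotient.mk Q (-1) := by
      rw [← hw, hk, pow_mul, pow_mul, map_pow, h8, ← map_pow]
    rw [Ideal.Quotient.eq] at h10
    rwa [sub_neg_eq_add] at h10
  have h11 : 2 * s ∈ Q := by
    have : 2 * s = (s - s ^ (n + 1)) + s * (s ^ n + 1) := by ring
    rw [this]
    exact Q.add_mem h7 (Q.mul_mem_left _ h9)
  have h12 : s ∈ Q := (hQ.isPrime.mem_or_mem h11).resolve_left h2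
  have h13 : (1 : Zbar F) ∈ Q := by
    have : (1 : Zbar F) = (s ^ n + 1) - s ^ n := by ring
    rw [this]
    exact Q.sub_mem h9 (Q.pow_mem_of_mem h12 n hn0)
  exact hQ.ne_top ((Ideal.eq_top_iff_one _).2 h13)

end Pool.Agent.H89.QT
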