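import Pool.Agent.H89.IP.IndF

/-!
# QT.Ind2 : induced class functions from a subgroup of index two
-/

set_option autoImplicit false

namespace Pool.Agent.H89.QT

open Pool.Agent.H89.IP

section

variable {G : Type*} [Group G] {H : Subgroup G}

/-- `c` represents the nontrivial coset of the subgroup `H` of index two of `G` -/
def IsC (H : Subgroup G) (c : G) : Prop := c ∉ H ∧ ∀ g, g ∉ H → c⁻¹ * g ∈ H

theorem IsC.mul_mem {c : G} (hc : IsC H c) {x y : G} (hx : x ∉ H) (hy : y ∉ H) :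
    x * y ∈ H := by
  by_contra h
  have h1 := hc.2 _ h
  have h2 := hc.2 x hx
  have h3 : (c⁻¹ * x)⁻¹ * (c⁻¹ * (x * y)) = y := by group
  exact hy (h3 ▸ H.mul_mem (H.inv_mem h2) h1)

theorem IsC.normal {c : G} (hc : IsC H c) : H.Normal := by
  refine ⟨fun n hn g => ?_⟩
  by_cases hg : g ∈ H
  · exact H.mul_mem (H.mul_mem hg hn) (H.inv_mem hg)
  · refine hc.mul_mem (fun h => hg ?_) (fun h => hg (inv_mem_iff.1 h))
    exact (mul_mem_cancel_right hn).1 h

theorem IsC.conj_mem {c : G} (hc : IsC H c) {g : G} (hg : g ∈ H) (x : G) : x⁻¹ * g * x ∈ H := by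
  have := hc.normal.conj_mem g hg x⁻¹
  rwa [inv_inv] at this

theorem IsC.conj_mem_iff {c : G} (hc : IsC H c) {g : G} (x : G) : x⁻¹ * g * x ∈ H ↔ g ∈ H := by
  refine ⟨fun h => ?_, fun h => hc.conj_mem h x⟩
  have := hc.conj_mem h x⁻¹
  have e : x⁻¹⁻¹ * (x⁻¹ * g * x) * x⁻¹ = g := by group
  rwa [e] at this

theorem IsC.quot {c : G} (hc : IsC H c) (q : G ⧸ H) :
    q = ((1 : G) : G ⧸ H) ∨ q = ((c : G) : G ⧸ H) := by
  induction q using QuotientGroup.induction_on with
  | H g =>
    by_cases hg : g ∈ H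
    · left
      rw [QuotientGroup.eq]
      rw [mul_one]
      exact H.inv_mem hg
    · right
      rw [eq_comm, QuotientGroup.eq]
      exact hc.2 g hg

theorem IsC.ne {c : G} (hc : IsC H c) : ((1 : G) : G ⧸ H) ≠ ((c : G) : G ⧸ H) := by
  rw [Ne, QuotientGroup.eq, inv_one, one_mul]
  exact hc.1

theorem IsC.finite {c : G} (hc : IsC H c) : Finite (G ⧸ H) := by
  have h : (Set.univ : Set (G ⧸ H)) ⊆ {((1 : G) : G ⧸ H), ((c : G) : G ⧸ H)} := by
    intro q _
    exact hc.quot q
  exact Set.finite_univ_iff.1 ((Set.toFinite _).subset h)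

theorem IsC.finiteIndex {c : G} (hc : IsC H c) : H.FiniteIndex := by
  have := hc.finite
  exact Subgroup.finiteIndex_of_finite_quotient

theorem IsC.index {c : G} (hc : IsC H c) : H.index = 2 := by
  have h1 := hc.finite
  have := Fintype.ofFinite (G ⧸ H)
  classical
  have h2 : (Finset.univ : Finset (G ⧸ H)) = {((1 : G) : G ⧸ H), ((c : G) : G ⧸ H)} := by
    ext q
    simp only [Finset.mem_univ, Finset.mem_insert, Finset.mem_singleton, true_iff]
    exact hc.quot q
  rw [Subgroup.index, Nat.card_eq_fintype_card, ← Finset.card_univ, h2, Finset.card_pair hc.ne]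

open Classical in
theorem ind_two [TopologicalSpace G] {E : Type*} [Field E] [TopologicalSpace E] {c : G} (hc : IsC H c) (f : H → E)
    (cl : ∀ g h : H, f (h⁻¹ * g * h) = f g) (g : G) :
    ind H f g = if h : g ∈ H then f ⟨g, h⟩ + f ⟨c⁻¹ * g * c, hc.conj_mem h c⟩ else 0 := by
  have h1 := hc.finite
  have := Fintype.ofFinite (G ⧸ H)
  have h2 : (Finset.univ : Finset (G ⧸ H)) = {((1 : G) : G ⧸ H), ((c : G) : G ⧸ H)} := by
    ext q
    simp only [Finset.mem_univ, Finset.mem_insert, Finset.mem_singleton, true_iff]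
    exact hc.quot q
  rw [ind, finsum_eq_sum_of_fintype, h2, Finset.sum_pair hc.ne, ind_rep f cl g 1,
    ind_rep f cl g c]
  by_cases hg : g ∈ H
  · have e1 : (1 : G)⁻¹ * g * 1 = g := by group
    rw [dif_pos (e1.symm ▸ hg), dif_pos (hc.conj_mem hg c), dif_pos hg]
    congr 1
    exact congrArg f (Subtype.ext e1)
  · have e1 : (1 : G)⁻¹ * g * 1 = g := by group
    rw [dif_neg (fun h => hg (e1 ▸ h)), dif_neg (fun h => hg ((hc.conj_mem_iff c).1 h)),
      dif_neg hg, add_zero]

end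

end Pool.Agent.H89.QT
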