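import Pool.Agent.H89.QT.Ind2
import Pool.Agent.H89.IP.NF

/-!
# QT.Pat : induction patching for a pair of open subgroups `B ≤ A` of index two in a compact group
-/

set_option autoImplicit false

open Matrix Pool.Agent.H71.Patch Pool.Agent.H41.TP

namespace Pool.Agent.H89.QT

open Pool.Agent.H89.IP

section

variable {Γ E : Type*} [Group Γ] [TopologicalSpace Γ] [Field E] [TopologicalSpace E]

open Classical in
/-- the class function induced from `B` to a group containing it with index two; `c` represents the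
nontrivial coset -/
noncomputable def ind2 (B : Subgroup Γ) (c : Γ) (f : B → E) (g : Γ) : E :=
  if h : g ∈ B ∧ c⁻¹ * g * c ∈ B then f ⟨g, h.1⟩ + f ⟨c⁻¹ * g * c, h.2⟩ else 0

theorem isC_sub {A B : Subgroup Γ} {c : Γ} (hcA : c ∈ A) (hcB : c ∉ B)
    (h2 : ∀ g ∈ A, g ∉ B → c⁻¹ * g ∈ B) : IsC (B.subgroupOf A) (⟨c, hcA⟩ : A) :=
  ⟨fun h => hcB (Subgroup.mem_subgroupOf.1 h), fun g hg =>
    Subgroup.mem_subgroupOf.2 (h2 g g.2 fun h => hg (Subgroup.mem_subgroupOf.2 h))⟩

theorem ind_sub {A B : Subgroup Γ} (hBA : B ≤ A) {c : Γ} (hcA : c ∈ A) (hcB : c ∉ B)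
    (h2 : ∀ g ∈ A, g ∉ B → c⁻¹ * g ∈ B) (f : B → E) (cl : ∀ g h : B, f (h⁻¹ * g * h) = f g)
    (g : A) :
    ind (B.subgroupOf A) (fun h => f (Subgroup.subgroupOfEquivOfLe hBA h)) g = ind2 B c f g := by
  have hc := isC_sub hcA hcB h2
  rw [ind_two hc _ (fun g h => by
    rw [map_mul, map_mul, map_inv]
    exact cl _ _), ind2]
  by_cases hg : (g : Γ) ∈ B
  · have h1 : g ∈ B.subgroupOf A := Subgroup.mem_subgroupOf.2 hg
    have h3 : c⁻¹ * (g : Γ) * c ∈ B := Subgroup.mem_subgroupOf.1 (hc.conj_mem h1 ⟨c, hcA⟩)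
    rw [dif_pos h1, dif_pos ⟨hg, h3⟩]
    rfl
  · rw [dif_neg (fun h => hg (Subgroup.mem_subgroupOf.1 h)), dif_neg (fun h => hg h.1)]

/-- the characters of `B` seen on `B.subgroupOf A` -/
def subX {A B : Subgroup Γ} (hBA : B ≤ A) (X : Subgroup (B →* Eˣ)) :
    Subgroup (B.subgroupOf A →* Eˣ) :=
  X.comap (MonoidHom.compHom' (Subgroup.subgroupOfEquivOfLe hBA).symm.toMonoidHom)

theorem mem_subX {A B : Subgroup Γ} {hBA : B ≤ A} {X : Subgroup (B →* Eˣ)}
    {χ : B.subgroupOf A →* Eˣ} :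
    χ ∈ subX hBA X ↔ χ.comp (Subgroup.subgroupOfEquivOfLe hBA).symm.toMonoidHom ∈ X := Iff.rfl

/-- back -/
def subB {A B : Subgroup Γ} {hBA : B ≤ A} {X : Subgroup (B →* Eˣ)} (χ : subX hBA X) : X :=
  ⟨χ.1.comp (Subgroup.subgroupOfEquivOfLe hBA).symm.toMonoidHom, mem_subX.1 χ.2⟩

/-- forth -/
def subF {A B : Subgroup Γ} (hBA : B ≤ A) {X : Subgroup (B →* Eˣ)} (χ : X) : subX hBA X :=
  ⟨χ.1.comp (Subgroup.subgroupOfEquivOfLe hBA).toMonoidHom, by
    rw [mem_subX, MonoidHom.comp_assoc]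
    have e : (Subgroup.subgroupOfEquivOfLe hBA).toMonoidHom.comp
        (Subgroup.subgroupOfEquivOfLe hBA).symm.toMonoidHom = MonoidHom.id B := by
      ext x
      simp
    rw [e, MonoidHom.comp_id]
    exact χ.2⟩

theorem subB_subF {A B : Subgroup Γ} (hBA : B ≤ A) {X : Subgroup (B →* Eˣ)} (χ : X) :
    subB (subF hBA χ) = χ := by
  apply Subtype.ext
  ext x
  simp [subB, subF]

theorem subF_subB {A B : Subgroup Γ} {hBA : B ≤ A} {X : Subgroup (B →* Eˣ)} (χ : subX hBA X) :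
    subF hBA (subB χ) = χ := by
  apply Subtype.ext
  ext x
  simp [subB, subF]

theorem cont_e {A B : Subgroup Γ} (hBA : B ≤ A) :
    Continuous (Subgroup.subgroupOfEquivOfLe hBA) := by
  rw [Topology.IsInducing.subtypeVal.continuous_iff]
  have h : Continuous (fun x : B.subgroupOf A => ((x : A) : Γ)) :=
    continuous_subtype_val.comp continuous_subtype_val
  exact h

theorem cont_es {A B : Subgroup Γ} (hBA : B ≤ A) :
    Continuous (Subgroup.subgroupOfEquivOfLe hBA).symm := by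
  rw [Topology.IsInducing.subtypeVal.continuous_iff, Topology.IsInducing.subtypeVal.continuous_iff]
  exact continuous_subtype_val

end

variable {Γ E : Type*} [Group Γ] [TopologicalSpace Γ] [IsTopologicalGroup Γ] [Field E]
  [CharZero E] [TopologicalSpace E]

/-- the data -/
noncomputable def patDat {N : ℕ} {A B : Subgroup Γ} (hA : IsOpen (A : Set Γ))
    (hB : IsOpen (B : Set Γ)) (hBA : B ≤ A) {c : Γ} (hcA : c ∈ A) (hcB : c ∉ B)
    (h2 : ∀ g ∈ A, g ∉ B → c⁻¹ * g ∈ B) (X : Subgroup (B →* Eˣ))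
    (hX : ∀ χ ∈ X, IsOfFinOrder χ ∧ Continuous χ) (gen : GenPosX X)
    (R : X → A →* GL (Fin N) E) (hR : ∀ χ, Continuous (R χ))
    (D : X → Set Γ) (conjD : ∀ χ, ∀ g ∈ D χ, ∀ x, x⁻¹ * g * x ∈ D χ)
    (den : ∀ F : Finset X, Dense (⋂ χ ∈ F, D χ))
    (a : B → E) (ha : ∀ g h, a (h⁻¹ * g * h) = a g)
    (tr : ∀ χ : X, ∀ g : A, (g : Γ) ∈ D χ →
      (R χ g).val.trace = ind2 B c (fun h => a h * ((χ.1 h : Eˣ) : E)) g) :
    GDat A E (B.subgroupOf A) N (subX hBA X) where
  R χ := vm (R (subB χ))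
  a h := a (Subgroup.subgroupOfEquivOfLe hBA h)
  D χ := {g | (g : Γ) ∈ D (subB χ)}
  hH := hB.preimage continuous_subtype_val
  tor χ := by
    obtain ⟨n, hn, h⟩ := isOfFinOrder_iff_pow_eq_one.1 (hX _ (subB χ).2).1
    refine isOfFinOrder_iff_pow_eq_one.2 ⟨n, hn, Subtype.ext ?_⟩
    ext x
    have h3 := congrArg Units.val (DFunLike.congr_fun h (Subgroup.subgroupOfEquivOfLe hBA x))
    simpa [subB] using h3
  cont χ := by
    have h1 := Units.continuous_val.comp ((hX _ (subB χ).2).2.comp (cont_e hBA))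
    have h3 : (fun h : B.subgroupOf A => ((χ.1 h : Eˣ) : E)) =
        (Units.val ∘ ((subB χ).1 ∘ (Subgroup.subgroupOfEquivOfLe hBA))) := by
      funext h
      simp [subB]
    rw [h3]
    exact h1
  big x hx U hU := by
    have hU' : IsOpen ((U.map A.subtype : Subgroup Γ) : Set Γ) := by
      rw [Subgroup.coe_map]
      exact hA.isOpenMap_subtype_val _ hU
    obtain ⟨χ, hχ, g, hg, h₁, h₂, hne⟩ := gen x
      (fun h => hx (Subgroup.mem_subgroupOf.2 h)) _ hU'
    obtain ⟨g', hg', rfl⟩ := Subgroup.mem_map.1 hg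
    refine ⟨subF hBA ⟨χ, hχ⟩, g', hg', h₁, h₂, fun h => hne ?_⟩
    exact h
  cR χ := cont_vm (hR _)
  conjD χ g hg x := conjD _ _ hg _
  den Z := by
    classical
    have h1 := den (Z.image subB)
    have h3 := h1.preimage (f := (Subtype.val : A → Γ)) hA.isOpenMap_subtype_val
    refine h3.mono ?_
    intro g hg
    rw [Set.mem_iInter₂]
    intro χ hχ
    have h4 := Set.mem_iInter₂.1 (Set.mem_preimage.1 hg) (subB χ) (Finset.mem_image_of_mem _ hχ)
    exact h4
  cl g h := by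
    rw [map_mul, map_mul, map_inv]
    exact ha _ _
  tr χ g hg := by
    have h1 := tr (subB χ) g hg
    rw [vm_apply, h1, ← ind_sub hBA hcA hcB h2 _ (fun g h => by
      have h3 : (subB χ).1 (h⁻¹ * g * h) = (subB χ).1 g := by
        rw [map_mul, map_mul, map_inv, mul_comm, mul_inv_cancel_left]
      rw [ha, h3])]
    congr 1

theorem semis_equiv {A' B' E' : Type*} [Group A'] [Group B'] [Field E'] {n : ℕ} (e : A' ≃* B')
    {ρ : B' →* GL (Fin n) E'} : Semis (ρ.comp e.toMonoidHom) ↔ Semis ρ := by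
  refine forall_congr' fun W => ?_
  have key : ∀ W : Submodule E' (Fin n → E'),
      (∀ g, ∀ x ∈ W, ((ρ.comp e.toMonoidHom) g).val *ᵥ x ∈ W) ↔
        ∀ g, ∀ x ∈ W, (ρ g).val *ᵥ x ∈ W := by
    intro W
    refine ⟨fun h g => ?_, fun h g => h (e g)⟩
    have := h (e.symm g)
    simpa using this
  rw [key W]
  refine imp_congr_right fun _ => exists_congr fun W' => ?_
  rw [key W']

theorem irred_equiv {A' B' E' : Type*} [Group A'] [Group B'] [Field E'] {n : ℕ} (e : A' ≃* B')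
    {ρ : B' →* GL (Fin n) E'} : Irred (ρ.comp e.toMonoidHom) ↔ Irred ρ := by
  refine and_congr_right fun _ => forall_congr' fun W => ?_
  have key : (∀ g, ∀ x ∈ W, ((ρ.comp e.toMonoidHom) g).val *ᵥ x ∈ W) ↔
        ∀ g, ∀ x ∈ W, (ρ g).val *ᵥ x ∈ W := by
    refine ⟨fun h g => ?_, fun h g => h (e g)⟩
    have := h (e.symm g)
    simpa using this
  exact imp_congr_left key

/-- **Induction patching for a pair of groups.** `B ≤ A` are open subgroups of a compact group, of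
index two; `c ∈ A`, `c ∉ B`. `X` is a group of continuous characters of finite order of `B` in
general position, `R χ` (`χ ∈ X`) continuous representations of `A` whose traces on the dense sets
`D χ` are those of the representation induced from `ρ ⊗ χ` if `a` were the trace of `ρ`. Then there is
such a continuous semisimple `ρ`, unique up to isomorphism. -/
theorem pat2 [CompactSpace Γ] [IsAlgClosed E] [IsTopologicalRing E] [T2Space E] {N : ℕ}
    {A B : Subgroup Γ} (hA : IsOpen (A : Set Γ))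
    (hB : IsOpen (B : Set Γ)) (hBA : B ≤ A) {c : Γ} (hcA : c ∈ A) (hcB : c ∉ B)
    (h2 : ∀ g ∈ A, g ∉ B → c⁻¹ * g ∈ B) (X : Subgroup (B →* Eˣ))
    (hX : ∀ χ ∈ X, IsOfFinOrder χ ∧ Continuous χ) (gen : GenPosX X)
    (R : X → A →* GL (Fin N) E) (hR : ∀ χ, Continuous (R χ))
    (D : X → Set Γ) (conjD : ∀ χ, ∀ g ∈ D χ, ∀ x, x⁻¹ * g * x ∈ D χ)
    (den : ∀ F : Finset X, Dense (⋂ χ ∈ F, D χ))
    (a : B → E) (ha : ∀ g h, a (h⁻¹ * g * h) = a g)
    (tr : ∀ χ : X, ∀ g : A, (g : Γ) ∈ D χ →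
      (R χ g).val.trace = ind2 B c (fun h => a h * ((χ.1 h : Eˣ) : E)) g) :
    ∃ (n : ℕ) (ρ : B →* GL (Fin n) E), Continuous ρ ∧ Semis ρ ∧ N = 2 * n ∧
      (∀ (χ : X) (g : A), (R χ g).val.trace =
        ind2 B c (fun h => (ρ h).val.trace * ((χ.1 h : Eˣ) : E)) g) ∧
      (∀ (n' : ℕ) (ρ' : B →* GL (Fin n') E), Continuous ρ' → Semis ρ' →
        (∀ (χ : X) (g : A), (R χ g).val.trace =
          ind2 B c (fun h => (ρ' h).val.trace * ((χ.1 h : Eˣ) : E)) g) →
        MIso (fun g => (ρ' g).val) (fun g => (ρ g).val)) ∧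
      (∀ (χ : X) (g : B), R χ ⟨g, hBA g.2⟩ = 1 → χ.1 g = 1 → ρ g = 1) ∧
      ∀ χ : X, Irred (R χ) → Irred ρ := by
  have hfin : (B.subgroupOf A).FiniteIndex := (isC_sub hcA hcB h2).finiteIndex
  have hAc : CompactSpace A := by
    have h3 : IsClosed (A : Set Γ) := Subgroup.isClosed_of_isOpen A hA
    exact isCompact_iff_compactSpace.1 h3.isCompact
  let Dt := patDat hA hB hBA hcA hcB h2 X hX gen R hR D conjD den a ha tr
  obtain ⟨n, ρ, c1, c2, c3, c4, c5, c6, c7, c8, c9⟩ := main Dt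
  let e := Subgroup.subgroupOfEquivOfLe hBA
  let ρB : B →* GL (Fin n) E := ρ.toHomUnits.comp e.symm.toMonoidHom
  have hρB : ∀ g, (ρB (e g)).val = ρ g := by
    intro g
    show ((ρ.toHomUnits (e.symm (e g))).val) = ρ g
    rw [MulEquiv.symm_apply_apply]
    rfl
  have hback : ρB.comp e.toMonoidHom = ρ.toHomUnits := by
    ext g : 2
    exact hρB g
  have htr : ∀ (n' : ℕ) (ρ' : B →* GL (Fin n') E) (χ : X) (g : A),
      ind (B.subgroupOf A) (fun h => chi (vm (ρ'.comp e.toMonoidHom)) h *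
        (((subF hBA χ).1 h : Eˣ) : E)) g =
        ind2 B c (fun h => (ρ' h).val.trace * ((χ.1 h : Eˣ) : E)) g := by
    intro n' ρ' χ g
    rw [← ind_sub hBA hcA hcB h2 _ (fun g h => by
      have h3 : χ.1 (h⁻¹ * g * h) = χ.1 g := by
        rw [map_mul, map_mul, map_inv, mul_comm, mul_inv_cancel_left]
      have h4 : (ρ' (h⁻¹ * g * h)).val.trace = (ρ' g).val.trace := by
        have h5 := chi_conj (vm ρ') g h⁻¹
        rw [inv_inv] at h5
        exact h5
      rw [h3, h4])]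
    rfl
  have hR' : ∀ (χ : X) (g : A), Dt.R (subF hBA χ) g = (R χ g).val := by
    intro χ g
    show (R (subB (subF hBA χ)) g).val = _
    rw [subB_subF]
  refine ⟨n, ρB, ?_, ?_, ?_, ?_, ?_, ?_, ?_⟩
  · exact (cont_gl c1).comp (cont_es hBA)
  · rw [← semis_equiv e, hback, ← msem_vm, vm_toHomUnits]
    exact c2
  · rw [c3, (isC_sub hcA hcB h2).index]
  · intro χ g
    rw [← htr n ρB χ g, hback, vm_toHomUnits, ← c4, hR']
  · intro n' ρ' h1 h3 h4
    obtain ⟨P, C, g1, g2, g3⟩ := c5 n' (vm (ρ'.comp e.toMonoidHom))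
      (cont_vm (h1.comp (cont_e hBA))) ((msem_vm _).2 ((semis_equiv e).2 h3)) (by
        intro χ g
        have h5 := h4 (subB χ) g
        rw [← htr n' ρ' (subB χ) g, subF_subB] at h5
        exact h5)
    refine ⟨C, P, g1, g2, fun g => ?_⟩
    have e5 : (ρ' g).val * P = P * (ρB g).val := by
      have h6 := g3 (e.symm g)
      rw [vm_apply, ← hρB] at h6
      have e7 : e (e.symm g) = g := e.apply_symm_apply g
      simp only [MonoidHom.comp_apply, MulEquiv.coe_toMonoidHom] at h6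
      rw [e7] at h6
      exact h6
    show C * (ρ' g).val = (ρB g).val * C
    calc C * (ρ' g).val = C * ((ρ' g).val * P) * C := by
          rw [Matrix.mul_assoc, Matrix.mul_assoc, g2, Matrix.mul_one]
      _ = C * (P * (ρB g).val) * C := by rw [e5]
      _ = (ρB g).val * C := by rw [← Matrix.mul_assoc C P, g1, Matrix.one_mul]
  · intro χ g h1 h3
    have h4 : Dt.R (subF hBA χ) (e.symm g : B.subgroupOf A) = 1 := by
      rw [hR']
      have e7 : ((e.symm g : B.subgroupOf A) : A) = ⟨g, hBA g.2⟩ := rfl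
      rw [e7, h1]
      rfl
    have h5 : (subF hBA χ).1 (e.symm g) = 1 := by
      have : (subF hBA χ).1 (e.symm g) = χ.1 (e (e.symm g)) := rfl
      rw [this, e.apply_symm_apply]
      exact h3
    have h6 := c8 (subF hBA χ) (e.symm g) h4 h5
    exact Units.ext h6
  · intro χ h1
    have h3 : MIrr (Dt.R (subF hBA χ)) := by
      have : Dt.R (subF hBA χ) = vm (R χ) := by
        ext g : 1
        exact hR' χ g
      rw [this]
      exact h1
    have h4 := c9 (subF hBA χ) h3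
    rw [← irred_equiv e, hback, ← mirr_vm, vm_toHomUnits]
    exact h4

end Pool.Agent.H89.QT
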