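import Pool.Agent.H89.QT.PatNF
import Pool.Agent.H89.QT.Cls

/-!
# QT.Rho0 : the representation of `G_K'` from the representations attached to the inductions of the quadratic twists, from local data

`L ≤ K` finite over `F`, `[K : L] = 2`, `c` the nontrivial coset. `quadX` : the group of the continuous quadratic characters of `G_K`. For every `χ` a continuous representation
`R χ` of `G_L` of dimension `2 m` and a finite set `S χ` of primes of `F`; `val Q g` the expected trace at the place `Q` of an element `g` of `G_K`, compatible with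
conjugation by `G_K`. If for all `Q` above primes outside `S χ` and all powers `g ∈ G_L` of Frobenius elements at `Q` the trace of `R χ g` is `val Q g χ(g) + val (c⁻¹ Q) (c⁻¹ g c) χ(c⁻¹ g c)` (`0` if `g ∉ G_K`),
then there is a unique continuous semisimple `ρ` of dimension `m` of `G_K` with `tr R χ g = tr ρ(g) χ(g) + tr ρ(c⁻¹ g c) χ(c⁻¹ g c)` for all `g`.
-/

set_option autoImplicit false

open scoped Pointwise NumberField
open Matrix IsDedekindDomain Pool.Agent.H71.Patch Pool.Agent.H41.TP Pool.Agent.H89.IP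

namespace Pool.Agent.H89.QT

/-- the continuous quadratic characters -/
def quadX (B E : Type*) [Group B] [TopologicalSpace B] [Field E] [TopologicalSpace E]
    [ContinuousMul E] : Subgroup (B →* Eˣ) where
  carrier := {χ | Continuous χ ∧ χ ^ 2 = 1}
  mul_mem' := by
    rintro χ ψ ⟨h1, h2⟩ ⟨h3, h4⟩
    refine ⟨?_, by
      ext g : 1
      have h5 : χ g ^ 2 = 1 := DFunLike.congr_fun h2 g
      have h6 : ψ g ^ 2 = 1 := DFunLike.congr_fun h4 g
      show (χ g * ψ g) ^ 2 = 1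
      rw [mul_pow, h5, h6, one_mul]⟩
    have : (fun g => χ g * ψ g) = (χ * ψ : B →* Eˣ) := rfl
    exact this ▸ h1.mul h3
  one_mem' := ⟨continuous_const, one_pow _⟩
  inv_mem' := by
    rintro χ ⟨h1, h2⟩
    have h3 : χ⁻¹ = χ := by
      ext g : 1
      have h4 : χ g ^ 2 = 1 := DFunLike.congr_fun h2 g
      rw [MonoidHom.inv_apply, inv_eq_iff_mul_eq_one, ← sq, h4]
    exact h3 ▸ ⟨h1, h2⟩

theorem mem_quadX {B E : Type*} [Group B] [TopologicalSpace B] [Field E] [TopologicalSpace E]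
    [ContinuousMul E] {χ : B →* Eˣ} : χ ∈ quadX B E ↔ Continuous χ ∧ χ ^ 2 = 1 := Iff.rfl

theorem rho0 {F : Type} [Field F] [NumberField F] (L K : IntermediateField F (AlgebraicClosure F))
    [FiniteDimensional F L] [FiniteDimensional F K] (hLK : L ≤ K) {c : GalK F}
    (hcL : c ∈ L.fixingSubgroup) (hcK : c ∉ K.fixingSubgroup)
    (h2 : ∀ g ∈ L.fixingSubgroup, g ∉ K.fixingSubgroup → c⁻¹ * g ∈ K.fixingSubgroup)
    {E : Type*} [Field E] [IsAlgClosed E] [CharZero E]
    [TopologicalSpace E] [IsTopologicalRing E] [T2Space E] {m : ℕ}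
    (R : quadX K.fixingSubgroup E → L.fixingSubgroup →* GL (Fin (2 * m)) E)
    (hR : ∀ χ, Continuous (R χ))
    (S : quadX K.fixingSubgroup E → Set (HeightOneSpectrum (𝓞 F))) (hS : ∀ χ, (S χ).Finite)
    (val : Ideal (Zbar F) → K.fixingSubgroup → E)
    (hval : ∀ (Q : Ideal (Zbar F)) (g x : K.fixingSubgroup), IsFP Q (g : GalK F) →
      val ((x : GalK F) • Q) (x * g * x⁻¹) = val Q g)
    (tr : ∀ (χ : quadX K.fixingSubgroup E) (v : HeightOneSpectrum (𝓞 F)), v ∉ S χ →
      ∀ Q, Above v Q → ∀ g : L.fixingSubgroup, IsFP Q (g : GalK F) →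
        ((g : GalK F) ∉ K.fixingSubgroup → (R χ g).val.trace = 0) ∧
        ∀ (h : (g : GalK F) ∈ K.fixingSubgroup) (h' : c⁻¹ * (g : GalK F) * c ∈ K.fixingSubgroup),
          (R χ g).val.trace = val Q ⟨g, h⟩ * ((χ.1 ⟨g, h⟩ : Eˣ) : E) +
            val (c⁻¹ • Q) ⟨c⁻¹ * g * c, h'⟩ * ((χ.1 ⟨c⁻¹ * g * c, h'⟩ : Eˣ) : E)) :
    ∃ (ρ : K.fixingSubgroup →* GL (Fin m) E), Continuous ρ ∧ Semis ρ ∧
      (∀ (χ : quadX K.fixingSubgroup E) (g : L.fixingSubgroup), (R χ g).val.trace =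
        ind2 K.fixingSubgroup c (fun h => (ρ h).val.trace * ((χ.1 h : Eˣ) : E)) g) ∧
      (∀ (n' : ℕ) (ρ' : K.fixingSubgroup →* GL (Fin n') E), Continuous ρ' → Semis ρ' →
        (∀ (χ : quadX K.fixingSubgroup E) (g : L.fixingSubgroup), (R χ g).val.trace =
          ind2 K.fixingSubgroup c (fun h => (ρ' h).val.trace * ((χ.1 h : Eˣ) : E)) g) →
        MIso (fun g => (ρ' g).val) (fun g => (ρ g).val)) ∧
      ∀ χ, Irred (R χ) → Irred ρ := by
  have hc : ∀ g ∈ K.fixingSubgroup, c⁻¹ * g * c ∈ K.fixingSubgroup := by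
    intro g hg
    have h3 := (isC_sub hcL hcK h2).conj_mem
      (g := ⟨g, IntermediateField.fixingSubgroup_antitone hLK hg⟩)
      (Subgroup.mem_subgroupOf.2 hg) ⟨c, hcL⟩
    exact Subgroup.mem_subgroupOf.1 h3
  obtain ⟨n, ρ, c1, c2, c3, c4, c5, -, c7⟩ := patNF L K hLK hcL hcK h2
    (quadX K.fixingSubgroup E)
    (fun χ hχ => ⟨isOfFinOrder_iff_pow_eq_one.2 ⟨2, by norm_num, hχ.2⟩, hχ.1⟩)
    (fun χ h1 h2 => ⟨h1, h2⟩) R hR (fun χ => S χ ∪ two F) (fun χ => (hS χ).union two_finite)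
    (glob val) (fun g h => glob_conj hval g h) (by
      intro χ g hg
      obtain ⟨v, hv, Q, hQ, hFP⟩ := frobPow_isFP Set.subset_union_right hg
      obtain ⟨t1, t2⟩ := tr χ v (fun h => hv (Set.mem_union_left _ h)) Q hQ g hFP
      by_cases hgK : (g : GalK F) ∈ K.fixingSubgroup
      · have h3 := hc _ hgK
        rw [ind2, dif_pos ⟨hgK, h3⟩, t2 hgK h3, glob_eq val (Q := Q) (g := ⟨g, hgK⟩) hFP,
          glob_eq val (Q := c⁻¹ • Q) (g := ⟨c⁻¹ * g * c, h3⟩) (hFP.conj_inv c)]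
      · rw [ind2, dif_neg (fun h => hgK h.1), t1 hgK])
  have hn : n = m := by omega
  subst hn
  exact ⟨ρ, c1, c2, c4, c5, c7⟩

end Pool.Agent.H89.QT
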